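import Mathlib
import Pool.Agent.TH841.NO.Stm
import Pool.Agent.Y667.RP.V0
import Pool.Agent.W405.SE.GoodP

/-!
# Selmer groups of 2-isogenies: independence of the model
-/

set_option autoImplicit false

namespace Pool.Agent.Q52.ISO

open Pool.Agent.TH841.NO (Qu SQ)

section

variable {K : Type} [Field K] [CharZero K]

/-- the quartic over a field, with `z N²` -/
lemma qu_iff {a b z : ℤ} (hz : z ≠ 0) (hd : z ∣ b) : Qu K a b z ↔ ∃ N M e : K,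
    (M ≠ 0 ∨ e ≠ 0) ∧ (z : K) * N ^ 2 = ((z : K) * M ^ 2) ^ 2 +
      (a : K) * ((z : K) * M ^ 2) * e ^ 2 + (b : K) * e ^ 4 := by
  obtain ⟨c, rfl⟩ := hd
  have hzK : (z : K) ≠ 0 := by exact_mod_cast hz
  have hdiv : z * c / z = c := Int.mul_ediv_cancel_left c hz
  unfold Qu
  rw [hdiv]
  constructor
  · rintro ⟨N, M, e, h1, h2⟩
    refine ⟨N, M, e, h1, ?_⟩
    rw [h2]
    push_cast
    ring
  · rintro ⟨N, M, e, h1, h2⟩
    refine ⟨N, M, e, h1, ?_⟩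
    apply mul_left_cancel₀ hzK
    rw [h2]
    push_cast
    ring

lemma qu_scale {a b a0 b0 z : ℤ} {u : ℚ} (hu : u ≠ 0) (ha : (a : ℚ) = u ^ 2 * a0)
    (hb : (b : ℚ) = u ^ 4 * b0) (hz : z ≠ 0) (hd : z ∣ b) (hd0 : z ∣ b0) (h : Qu K a b z) :
    Qu K a0 b0 z := by
  rw [qu_iff hz hd] at h
  rw [qu_iff hz hd0]
  obtain ⟨N, M, e, h1, h2⟩ := h
  have huK : (u : K) ≠ 0 := by exact_mod_cast hu
  have haK : (a : K) = (u : K) ^ 2 * a0 := by exact_mod_cast congrArg (Rat.cast : ℚ → K) ha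
  have hbK : (b : K) = (u : K) ^ 4 * b0 := by exact_mod_cast congrArg (Rat.cast : ℚ → K) hb
  refine ⟨N, M, u * e, ?_, ?_⟩
  · rcases h1 with h | h
    · exact Or.inl h
    · exact Or.inr (mul_ne_zero huK h)
  · rw [h2, haK, hbK]
    ring

end

section

variable {p : ℕ} [hp : Fact p.Prime]

/-- the valuation of a sum with a dominating term -/
lemma val_dom {x y : ℚ_[p]} (hx : x ≠ 0) (h : ‖y‖ < ‖x‖) : (x + y).valuation = x.valuation := by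
  have h1 : ‖x + y‖ = ‖x‖ := by
    have := Padic.add_eq_max_of_ne (p := p) (q := x) (r := y) h.ne'
    rw [this]
    exact max_eq_left h.le
  have hxy : x + y ≠ 0 := by
    intro h0
    rw [h0, norm_zero] at h1
    exact hx (norm_eq_zero.1 h1.symm)
  rw [Padic.norm_eq_zpow_neg_valuation hxy, Padic.norm_eq_zpow_neg_valuation hx] at h1
  have hp1 : (1 : ℝ) < p := by exact_mod_cast hp.out.one_lt
  have := zpow_right_injective₀ (by linarith) hp1.ne' h1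
  linarith

lemma val_pow2 {x : ℚ_[p]} (n : ℕ) : (x ^ n).valuation = n * x.valuation := Padic.valuation_pow x n

/-- a prime of `b₁` with a soluble quartic divides `b` -/
lemma dvd_of_qu {a b a0 b0 z : ℤ} {u : ℚ} (hu : u ≠ 0) (ha : (a : ℚ) = u ^ 2 * a0)
    (hb : (b : ℚ) = u ^ 4 * b0) (hz : Squarefree z) (hd : z ∣ b) (h : Qu ℚ_[p] a b z)
    (hpz : (p : ℤ) ∣ z) : (p : ℤ) ∣ b0 := by
  by_contra hpb
  have hz0 := hz.ne_zero
  rw [qu_iff hz0 hd] at h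
  obtain ⟨N, M, e, h1, h2⟩ := h
  have huK : (u : ℚ_[p]) ≠ 0 := by exact_mod_cast hu
  have haK : (a : ℚ_[p]) = (u : ℚ_[p]) ^ 2 * a0 := by
    exact_mod_cast congrArg (Rat.cast : ℚ → ℚ_[p]) ha
  have hbK : (b : ℚ_[p]) = (u : ℚ_[p]) ^ 4 * b0 := by
    exact_mod_cast congrArg (Rat.cast : ℚ → ℚ_[p]) hb
  have hzK : (z : ℚ_[p]) ≠ 0 := by exact_mod_cast hz0
  have hb0 : b0 ≠ 0 := by
    rintro rfl
    exact hpb (dvd_zero _)
  have hb0K : (b0 : ℚ_[p]) ≠ 0 := by exact_mod_cast hb0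
  have vb : (b0 : ℚ_[p]).valuation = 0 := by
    rw [Padic.valuation_intCast, padicValInt.eq_zero_of_not_dvd hpb]
    rfl
  -- the valuation of `z` is odd
  have vz : Odd (z : ℚ_[p]).valuation := by
    rw [← Int.not_even_iff_odd]
    intro hev
    have := Pool.Agent.W405.SE.not_dvd (p := p) hz hev
    exact this hpz
  obtain ⟨E, hE⟩ : ∃ E, E = (u : ℚ_[p]) * e := ⟨_, rfl⟩
  obtain ⟨X, hX⟩ : ∃ X, X = (z : ℚ_[p]) * M ^ 2 := ⟨_, rfl⟩
  have h3 : (z : ℚ_[p]) * N ^ 2 = X ^ 2 + (a0 : ℚ_[p]) * X * E ^ 2 + b0 * E ^ 4 := by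
    rw [h2, haK, hbK, hX, hE]
    ring
  have h1' : M ≠ 0 ∨ E ≠ 0 := by
    rcases h1 with h | h
    · exact Or.inl h
    · exact Or.inr (by rw [hE]; exact mul_ne_zero huK h)
  -- the left hand side has odd valuation
  have hL : ∀ R : ℚ_[p], R ≠ 0 → Even R.valuation → (z : ℚ_[p]) * N ^ 2 ≠ R := by
    intro R hR hev heq
    have hN : N ≠ 0 := by
      rintro rfl
      apply hR
      rw [← heq]
      ring
    rw [← heq, Padic.valuation_mul hzK (pow_ne_zero 2 hN), val_pow2] at hev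
    have h4 : Even (((2 : ℕ) : ℤ) * N.valuation) := by
      push_cast
      exact even_two_mul _
    exact (Int.not_even_iff_odd.2 vz) ((Int.even_add.1 hev).2 h4)
  have hn : ∀ x : ℚ_[p], x ≠ 0 → ‖x‖ = (p : ℝ) ^ (-x.valuation) := fun x hx =>
    Padic.norm_eq_zpow_neg_valuation hx
  have ha0 : ‖(a0 : ℚ_[p])‖ ≤ 1 := Padic.norm_int_le_one a0
  have hb1 : ‖(b0 : ℚ_[p])‖ = 1 := by rw [hn _ hb0K, vb, neg_zero, zpow_zero]
  have evE : ∀ x : ℚ_[p], Even (x ^ 2).valuation := fun x => by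
    rw [val_pow2]
    push_cast
    exact even_two_mul _
  by_cases hM : M = 0
  · have hE0 : E ≠ 0 := h1'.resolve_left (not_not.2 hM)
    have hX0 : X = 0 := by rw [hX, hM]; ring
    rw [hX0] at h3
    refine hL (b0 * E ^ 4) (mul_ne_zero hb0K (pow_ne_zero 4 hE0)) ?_ (by rw [h3]; ring)
    rw [Padic.valuation_mul hb0K (pow_ne_zero 4 hE0), vb, zero_add, val_pow2]
    exact ⟨2 * E.valuation, by push_cast; ring⟩
  have hX0 : X ≠ 0 := by rw [hX]; exact mul_ne_zero hzK (pow_ne_zero 2 hM)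
  have vX : Odd X.valuation := by
    rw [hX, Padic.valuation_mul hzK (pow_ne_zero 2 hM)]
    exact Odd.add_even vz (evE M)
  by_cases hE0 : E = 0
  · rw [hE0] at h3
    exact hL (X ^ 2) (pow_ne_zero 2 hX0) (evE X) (by rw [h3]; ring)
  have hE2 : E ^ 2 ≠ 0 := pow_ne_zero 2 hE0
  have hXn : 0 < ‖X‖ := norm_pos_iff.2 hX0
  have hEn : 0 < ‖E ^ 2‖ := norm_pos_iff.2 hE2
  have hne : ‖X‖ ≠ ‖E ^ 2‖ := by
    intro heq
    rw [hn _ hX0, hn _ hE2] at heq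
    have hp1 : (1 : ℝ) < p := by exact_mod_cast hp.out.one_lt
    have h5 := zpow_right_injective₀ (by linarith) hp1.ne' heq
    have h6 : X.valuation = (E ^ 2).valuation := by linarith
    rw [h6] at vX
    exact (Int.not_even_iff_odd.2 vX) (evE E)
  have hmid : ‖(a0 : ℚ_[p]) * X * E ^ 2‖ ≤ ‖X‖ * ‖E ^ 2‖ := by
    rw [norm_mul, norm_mul]
    calc ‖(a0 : ℚ_[p])‖ * ‖X‖ * ‖E ^ 2‖ ≤ 1 * ‖X‖ * ‖E ^ 2‖ := by gcongr
      _ = ‖X‖ * ‖E ^ 2‖ := by ring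
  have hE4 : ‖(b0 : ℚ_[p]) * E ^ 4‖ = ‖E ^ 2‖ * ‖E ^ 2‖ := by
    rw [norm_mul, hb1, one_mul, ← norm_mul]
    congr 1
    ring
  have hX2 : ‖X ^ 2‖ = ‖X‖ * ‖X‖ := by rw [sq, norm_mul]
  rcases lt_or_gt_of_ne hne with hlt | hlt
  · -- the last term dominates
    have h7 : ‖X ^ 2 + (a0 : ℚ_[p]) * X * E ^ 2‖ < ‖(b0 : ℚ_[p]) * E ^ 4‖ := by
      refine lt_of_le_of_lt (Padic.nonarchimedean _ _) (max_lt ?_ ?_)
      · rw [hX2, hE4]
        exact mul_lt_mul'' hlt hlt hXn.le hXn.le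
      · rw [hE4]
        exact lt_of_le_of_lt hmid (mul_lt_mul_of_pos_right hlt hEn)
    have hbE : (b0 : ℚ_[p]) * E ^ 4 ≠ 0 := mul_ne_zero hb0K (pow_ne_zero 4 hE0)
    have h8 := val_dom hbE h7
    refine hL (b0 * E ^ 4 + (X ^ 2 + (a0 : ℚ_[p]) * X * E ^ 2)) ?_ ?_ (by rw [h3]; ring)
    · intro h0
      have h9 : ‖X ^ 2 + (a0 : ℚ_[p]) * X * E ^ 2‖ = ‖(b0 : ℚ_[p]) * E ^ 4‖ := by
        rw [← norm_neg]
        congr 1
        linear_combination (-1 : ℚ_[p]) * h0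
      exact h7.ne h9
    · rw [h8, Padic.valuation_mul hb0K (pow_ne_zero 4 hE0), vb, zero_add, val_pow2]
      exact ⟨2 * E.valuation, by push_cast; ring⟩
  · -- the first term dominates
    have h7 : ‖(a0 : ℚ_[p]) * X * E ^ 2 + (b0 : ℚ_[p]) * E ^ 4‖ < ‖X ^ 2‖ := by
      refine lt_of_le_of_lt (Padic.nonarchimedean _ _) (max_lt ?_ ?_)
      · rw [hX2]
        exact lt_of_le_of_lt hmid (mul_lt_mul_of_pos_left hlt hXn)
      · rw [hX2, hE4]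
        exact mul_lt_mul'' hlt hlt hEn.le hEn.le
    have hX2' : X ^ 2 ≠ 0 := pow_ne_zero 2 hX0
    have h8 := val_dom hX2' h7
    refine hL (X ^ 2 + ((a0 : ℚ_[p]) * X * E ^ 2 + (b0 : ℚ_[p]) * E ^ 4)) ?_ ?_
      (by rw [h3]; ring)
    · intro h0
      have h9 : ‖(a0 : ℚ_[p]) * X * E ^ 2 + (b0 : ℚ_[p]) * E ^ 4‖ = ‖X ^ 2‖ := by
        rw [← norm_neg]
        congr 1
        linear_combination (-1 : ℚ_[p]) * h0
      exact h7.ne h9
    · rw [h8]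
      exact evE X

end

lemma dvd_of' {z n : ℤ} (hz : Squarefree z)
    (h : ∀ q : ℕ, q.Prime → (q : ℤ) ∣ z → (q : ℤ) ∣ n) : z ∣ n := by
  rw [← Int.natAbs_dvd_natAbs]
  exact Pool.Agent.Y667.RP.natAbs_dvd hz fun q hq hd => Int.natCast_dvd.1 (h q hq hd)

lemma sq_sub {a b a0 b0 : ℤ} {u : ℚ} (hu : u ≠ 0) (ha : (a : ℚ) = u ^ 2 * a0)
    (hb : (b : ℚ) = u ^ 4 * b0) : SQ a b ⊆ SQ a0 b0 := by
  rintro z ⟨hz, hd, hr, hp⟩
  have hd0 : z ∣ b0 := by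
    refine dvd_of' hz fun q hq hqz => ?_
    have : Fact q.Prime := ⟨hq⟩
    exact dvd_of_qu hu ha hb hz hd (hp q) hqz
  exact ⟨hz, hd0, qu_scale hu ha hb hz.ne_zero hd hd0 hr,
    fun p _ => qu_scale hu ha hb hz.ne_zero hd hd0 (hp p)⟩

/-- **independence of the model** -/
theorem sq_scale {a b a0 b0 : ℤ} {u : ℚ} (hu : u ≠ 0) (ha : (a : ℚ) = u ^ 2 * a0)
    (hb : (b : ℚ) = u ^ 4 * b0) : SQ a b = SQ a0 b0 := by
  refine Set.Subset.antisymm (sq_sub hu ha hb) (sq_sub (u := u⁻¹) (inv_ne_zero hu) ?_ ?_)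
  · rw [ha]
    field_simp
  · rw [hb]
    field_simp

end Pool.Agent.Q52.ISO
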