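import Pool.Agent.Q52.ISO.Main
import Pool.Agent.Q52.ISO.Scale
import Pool.Agent.W261.RT.Iso
import Pool.Agent.Y667.PA.Prod

/-!
# Selmer groups of 2-isogenies: all the models, and the 2-isogenous curves
-/

set_option autoImplicit false

namespace Pool.Agent.Q52.ISO

open Pool.Agent.TH841.NO (Qu SQ)

open Module

/-- the curve `y² = x³ + a x² + b x` -/
def Mo (a b : ℤ) : WeierstrassCurve ℚ := ⟨0, (a : ℚ), 0, (b : ℚ), 0⟩

/-- the curve `y² = x³ + A x + B` -/
def Eo (A B : ℤ) : WeierstrassCurve ℚ := ⟨0, 0, 0, (A : ℚ), (B : ℚ)⟩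

/-- a rational root of a monic cubic polynomial is an integer -/
lemma int_root {A B : ℤ} {x : ℚ} (h : x ^ 3 + A * x + B = 0) : ∃ e : ℤ, (e : ℚ) = x := by
  have hi : IsIntegral ℤ x := by
    refine ⟨Polynomial.X ^ 3 + (Polynomial.C A * Polynomial.X + Polynomial.C B), ?_, ?_⟩
    · apply Polynomial.monic_X_pow_add
      refine lt_of_le_of_lt (Polynomial.degree_linear_le) (by norm_num)
    · simp only [Polynomial.eval₂_add, Polynomial.eval₂_pow, Polynomial.eval₂_X,
        Polynomial.eval₂_mul, Polynomial.eval₂_C]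
      simp only [eq_intCast]
      rw [← h]
      ring
  obtain ⟨e, he⟩ := IsIntegrallyClosed.isIntegral_iff.1 hi
  exact ⟨e, by rw [← he]; simp⟩

/-- the models of the curve -/
lemma model_of {a b A B : ℤ} {C : WeierstrassCurve.VariableChange ℚ}
    (h : C • Mo a b = Eo A B) : ∃ (e : ℤ) (u : ℚ), u ≠ 0 ∧ e ^ 3 + A * e + B = 0 ∧
      (a : ℚ) = u ^ 2 * ((3 * e : ℤ) : ℚ) ∧ (b : ℚ) = u ^ 4 * ((3 * e ^ 2 + A : ℤ) : ℚ) ∧
      Nonempty ((Mo a b).toAffine.Point ≃+ (Eo A B).toAffine.Point) := by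
  have hu0 : (C.u : ℚ) ≠ 0 := C.u.ne_zero
  have h1 := congrArg WeierstrassCurve.a₁ h
  have h2 := congrArg WeierstrassCurve.a₂ h
  have h3 := congrArg WeierstrassCurve.a₃ h
  have h4 := congrArg WeierstrassCurve.a₄ h
  have h6 := congrArg WeierstrassCurve.a₆ h
  simp only [WeierstrassCurve.variableChange_a₁, WeierstrassCurve.variableChange_a₂,
    WeierstrassCurve.variableChange_a₃, WeierstrassCurve.variableChange_a₄,
    WeierstrassCurve.variableChange_a₆, Mo, Eo, Units.val_inv_eq_inv_val] at h1 h2 h3 h4 h6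
  have hui : (C.u : ℚ)⁻¹ ≠ 0 := inv_ne_zero hu0
  have hs : C.s = 0 := by
    have := (mul_eq_zero.1 h1).resolve_left hui
    linarith
  rw [hs] at h2 h4
  have ht : C.t = 0 := by
    have := (mul_eq_zero.1 h3).resolve_left (pow_ne_zero 3 hui)
    linarith
  rw [ht] at h4 h6
  have hr : (a : ℚ) + 3 * C.r = 0 := by
    have := (mul_eq_zero.1 h2).resolve_left (pow_ne_zero 2 hui)
    linarith
  have hA : (A : ℚ) = ((b : ℚ) + 2 * C.r * a + 3 * C.r ^ 2) / (C.u : ℚ) ^ 4 := by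
    rw [← h4]
    field_simp
    ring
  have hB : (B : ℚ) = ((0 : ℚ) + C.r * b + C.r ^ 2 * a + C.r ^ 3) / (C.u : ℚ) ^ 6 := by
    rw [← h6]
    field_simp
    ring
  have ha : (a : ℚ) = -3 * C.r := by linarith
  obtain ⟨e, he⟩ := int_root (A := A) (B := B) (x := -C.r / (C.u : ℚ) ^ 2) (by
    rw [hA, hB, ha]
    field_simp
    ring)
  have her : C.r = -(e : ℚ) * (C.u : ℚ) ^ 2 := by
    rw [he]
    field_simp
  refine ⟨e, C.u, hu0, ?_, ?_, ?_, ?_⟩
  · have : (e : ℚ) ^ 3 + A * e + B = 0 := by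
      rw [he, hA, hB, ha]
      field_simp
      ring
    exact_mod_cast this
  · rw [ha, her]
    push_cast
    ring
  · have h5 : (b : ℚ) = A * (C.u : ℚ) ^ 4 - 2 * C.r * a - 3 * C.r ^ 2 := by
      rw [hA]
      field_simp
      ring
    rw [h5, ha, her]
    push_cast
    ring
  · have := Pool.Agent.W261.RT.iso a b 0 C.r C.u hu0
    have e1 : (⟨0, ((a : ℚ) + 3 * C.r) / (C.u : ℚ) ^ 2, 0,
        ((b : ℚ) + 2 * C.r * a + 3 * C.r ^ 2) / (C.u : ℚ) ^ 4,
        (0 + C.r * b + C.r ^ 2 * a + C.r ^ 3) / (C.u : ℚ) ^ 6⟩ : WeierstrassCurve ℚ) =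
        Eo A B := by
      unfold Eo
      rw [hr, ← hA, ← hB, zero_div]
    rw [e1] at this
    exact this

/-! ### finiteness of the group of the rational points -/

lemma fin_quad (p q : ℚ) : {x : ℚ | x ^ 2 + p * x + q = 0}.Finite := by
  have h0 : (Polynomial.X ^ 2 + (Polynomial.C p * Polynomial.X + Polynomial.C q) :
      Polynomial ℚ) ≠ 0 := by
    apply Polynomial.Monic.ne_zero
    apply Polynomial.monic_X_pow_add
    exact lt_of_le_of_lt (Polynomial.degree_linear_le) (by norm_num)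
  refine (Multiset.finite_toSet (Polynomial.roots (Polynomial.X ^ 2 +
    (Polynomial.C p * Polynomial.X + Polynomial.C q) : Polynomial ℚ))).subset ?_
  intro x hx
  rw [Set.mem_ofPred_eq, Polynomial.mem_roots h0, Polynomial.IsRoot.def]
  simp only [Polynomial.eval_add, Polynomial.eval_pow, Polynomial.eval_X, Polynomial.eval_mul,
    Polynomial.eval_C]
  rw [← add_assoc]
  exact hx

/-- the affine points -/
def Aff (a b : ℚ) : Set (ℚ × ℚ) := {P | P.2 ^ 2 = P.1 ^ 3 + a * P.1 ^ 2 + b * P.1}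

/-- the 2-isogeny has finite fibres -/
lemma fin_isog {a b : ℚ} (h : (Aff (-2 * a) (a ^ 2 - 4 * b)).Finite) : (Aff a b).Finite := by
  have hsub : Aff a b ⊆ ({0} ×ˢ {y : ℚ | y ^ 2 + 0 * y + 0 = 0}) ∪
      ⋃ P ∈ Aff (-2 * a) (a ^ 2 - 4 * b), ⋃ x ∈ {x : ℚ | x ^ 2 + (a - P.1) * x + b = 0},
        ({x} : Set ℚ) ×ˢ {y : ℚ | y ^ 2 + 0 * y + -(x ^ 3 + a * x ^ 2 + b * x) = 0} := by
    rintro ⟨x, y⟩ hxy
    have hxy' : y ^ 2 = x ^ 3 + a * x ^ 2 + b * x := hxy
    by_cases hx : x = 0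
    · left
      subst hx
      refine ⟨rfl, ?_⟩
      show y ^ 2 + 0 * y + 0 = 0
      rw [hxy']
      ring
    · right
      rw [Set.mem_iUnion₂]
      refine ⟨(y ^ 2 / x ^ 2, y * (b - x ^ 2) / x ^ 2), ?_, ?_⟩
      · show (y * (b - x ^ 2) / x ^ 2) ^ 2 = (y ^ 2 / x ^ 2) ^ 3 +
          -2 * a * (y ^ 2 / x ^ 2) ^ 2 + (a ^ 2 - 4 * b) * (y ^ 2 / x ^ 2)
        have e1 : (y * (b - x ^ 2) / x ^ 2) ^ 2 = y ^ 2 * (b - x ^ 2) ^ 2 / x ^ 4 := by
          field_simp
        rw [e1, hxy']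
        field_simp
        ring
      · rw [Set.mem_iUnion₂]
        refine ⟨x, ?_, rfl, ?_⟩
        · show x ^ 2 + (a - y ^ 2 / x ^ 2) * x + b = 0
          rw [hxy']
          field_simp
          ring
        · show y ^ 2 + 0 * y + -(x ^ 3 + a * x ^ 2 + b * x) = 0
          rw [hxy']
          ring
  refine Set.Finite.subset ?_ hsub
  refine ((Set.finite_singleton _).prod (fin_quad _ _)).union ?_
  refine h.biUnion fun P _ => ?_
  refine (fin_quad _ _).biUnion fun x _ => ?_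
  exact (Set.finite_singleton _).prod (fin_quad _ _)

/-- the coordinates of a point -/
def co {W : WeierstrassCurve ℚ} : W.toAffine.Point → Option (ℚ × ℚ)
  | .zero => none
  | .some x y _ => some (x, y)

lemma co_inj {W : WeierstrassCurve ℚ} : Function.Injective (co (W := W)) := by
  rintro (_ | ⟨x, y, h⟩) (_ | ⟨x', y', h'⟩) he
  · rfl
  · simp [co] at he
  · simp [co] at he
  · simp only [co, Option.some.injEq, Prod.mk.injEq] at he
    obtain ⟨rfl, rfl⟩ := he
    rfl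

lemma fin_point {a b : ℤ} (h : (Aff a b).Finite) : Finite (Mo a b).toAffine.Point := by
  have h1 : (insert none (some '' Aff a b) : Set (Option (ℚ × ℚ))).Finite :=
    (h.image _).insert _
  have h2 : ∀ P : (Mo a b).toAffine.Point, co P ∈ (insert none (some '' Aff a b) :
      Set (Option (ℚ × ℚ))) := by
    rintro (_ | ⟨x, y, hP⟩)
    · exact Or.inl rfl
    · right
      refine ⟨(x, y), ?_, rfl⟩
      have h3 := (WeierstrassCurve.Affine.equation_iff (W := (Mo a b).toAffine) x y).1 hP.1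
      unfold Mo at h3
      show y ^ 2 = x ^ 3 + a * x ^ 2 + b * x
      simp only [zero_mul, add_zero] at h3
      exact h3
  have h4 : Set.Finite (Set.univ : Set (Mo a b).toAffine.Point) :=
    Set.Finite.of_finite_image (f := co) (h1.subset (by
      rintro _ ⟨P, -, rfl⟩
      exact h2 P)) co_inj.injOn
  exact Set.finite_univ_iff.1 h4

lemma point_fin {a b : ℤ} (hΔ : (Mo a b).Δ ≠ 0) (h : Finite (Mo a b).toAffine.Point) :
    (Aff a b).Finite := by
  have h1 : (Set.range (co (W := Mo a b))).Finite := Set.finite_range _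
  refine Set.Finite.of_finite_image (f := some) (h1.subset ?_) (Option.some_injective _).injOn
  rintro _ ⟨⟨x, y⟩, hP, rfl⟩
  have hP' : y ^ 2 = x ^ 3 + a * x ^ 2 + b * x := hP
  have h2 : (Mo a b).toAffine.Equation x y := by
    rw [WeierstrassCurve.Affine.equation_iff]
    unfold Mo
    simp only [zero_mul, add_zero]
    exact hP'
  exact ⟨.some x y ((WeierstrassCurve.Affine.equation_iff_nonsingular_of_Δ_ne_zero hΔ).1 h2),
    rfl⟩

/-- a finitely generated group of rank zero is finite -/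
lemma fin_of_rank {M : Type} [AddCommGroup M] [Module.Finite ℤ M] (h : finrank ℤ M = 0) :
    Finite M :=
  Module.finite_of_fg_torsion M (Module.finrank_eq_zero_iff_isTorsion.1 h)

lemma rank_of_fin {M : Type} [AddCommGroup M] (h : Finite M) : finrank ℤ M = 0 := by
  have : Module.Finite ℤ M := Module.Finite.of_finite
  refine Module.finrank_eq_zero_iff_isTorsion.2 ?_
  intro x
  obtain ⟨n, hn, hx⟩ := isOfFinAddOrder_iff_nsmul_eq_zero.1 (isOfFinAddOrder_of_finite x)
  refine ⟨⟨(n : ℤ), mem_nonZeroDivisors_of_ne_zero (by exact_mod_cast hn.ne')⟩, ?_⟩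
  show (n : ℤ) • x = 0
  rw [natCast_zsmul]
  exact hx

/-- the exponent -/
noncomputable def ex (a b : ℤ) : ℕ := Nat.log 2 (SQ a b).ncard

lemma ex_eq {a b : ℤ} {f : ℕ} (h : (SQ a b).ncard = 2 ^ f) : ex a b = f := by
  unfold ex
  rw [h]
  exact Nat.log_pow (by norm_num) f

/-- the statement for the curve `y² = x³ + a x² + b x` -/
def Conj (a b : ℤ) : Prop :=
  Even (finrank ℤ (Mo a b).toAffine.Point + ex a b + ex (-2 * a) (a ^ 2 - 4 * b))

/-- isomorphic curves -/
def Iso (W W' : WeierstrassCurve ℚ) : Prop :=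
  ∃ C : WeierstrassCurve.VariableChange ℚ, C • W = W'

/-- **all the models of the curve and of the isogenous curves** -/
theorem conj_of {c : ℤ × ℤ} (hP : Par 0 c) (hfin : Finite (Eo c.1 c.2).toAffine.Point)
    (hΔ : (Eo c.1 c.2).Δ ≠ 0) (a b : ℤ)
    (h : Iso (Mo a b) (Eo c.1 c.2) ∨ Iso (Mo (-2 * a) (a ^ 2 - 4 * b)) (Eo c.1 c.2)) :
    Finite (Mo a b).toAffine.Point ∧ (SQ a b).ncard = 2 ^ ex a b ∧
      (SQ (-2 * a) (a ^ 2 - 4 * b)).ncard = 2 ^ ex (-2 * a) (a ^ 2 - 4 * b) ∧ Conj a b := by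
  rcases h with ⟨C, hC⟩ | ⟨C, hC⟩
  · obtain ⟨e, u, hu, he, ha, hb, ⟨φ⟩⟩ := model_of hC
    obtain ⟨f1, f2, g1, g2, hev⟩ := hP e he
    have hf : Finite (Mo a b).toAffine.Point := Finite.of_equiv _ φ.symm.toEquiv
    rw [add_zero] at hev
    have h1 : (SQ a b).ncard = 2 ^ f1 := by rw [sq_scale hu ha hb]; exact g1
    have h2 : (SQ (-2 * a) (a ^ 2 - 4 * b)).ncard = 2 ^ f2 := by
      rw [sq_scale (a0 := -2 * (3 * e)) (b0 := (3 * e) ^ 2 - 4 * (3 * e ^ 2 + c.1)) hu ?_ ?_]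
      · exact g2
      · push_cast at ha ⊢
        rw [ha]
        ring
      · push_cast at ha hb ⊢
        rw [ha, hb]
        ring
    refine ⟨hf, by rw [ex_eq h1, h1], by rw [ex_eq h2, h2], ?_⟩
    unfold Conj
    rw [rank_of_fin hf, ex_eq h1, ex_eq h2, zero_add]
    exact hev
  · obtain ⟨e, u, hu, he, ha, hb, ⟨φ⟩⟩ := model_of hC
    obtain ⟨f1, f2, g1, g2, hev⟩ := hP e he
    have hf : Finite (Mo (-2 * a) (a ^ 2 - 4 * b)).toAffine.Point :=
      Finite.of_equiv _ φ.symm.toEquiv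
    have hΔ' : (Mo (-2 * a) (a ^ 2 - 4 * b)).Δ ≠ 0 := by
      intro h0
      apply hΔ
      rw [← hC, WeierstrassCurve.variableChange_Δ, h0, mul_zero]
    have hA := point_fin hΔ' hf
    have hA' : (Aff (-2 * (a : ℚ)) ((a : ℚ) ^ 2 - 4 * b)).Finite := by
      have e1 : ((-2 * a : ℤ) : ℚ) = -2 * (a : ℚ) := by push_cast; ring
      have e2 : ((a ^ 2 - 4 * b : ℤ) : ℚ) = (a : ℚ) ^ 2 - 4 * b := by push_cast; ring
      rw [e1, e2] at hA
      exact hA
    have hf' : Finite (Mo a b).toAffine.Point := fin_point (fin_isog hA')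
    rw [add_zero] at hev
    have h1 : (SQ (-2 * a) (a ^ 2 - 4 * b)).ncard = 2 ^ f1 := by
      rw [sq_scale hu ha hb]
      exact g1
    have h2 : (SQ a b).ncard = 2 ^ f2 := by
      have e3 : SQ a b = SQ (-2 * (-2 * a)) ((-2 * a) ^ 2 - 4 * (a ^ 2 - 4 * b)) := by
        refine (sq_scale (u := 2) two_ne_zero ?_ ?_).symm
        · push_cast; ring
        · push_cast; ring
      rw [e3, sq_scale (a0 := -2 * (3 * e)) (b0 := (3 * e) ^ 2 - 4 * (3 * e ^ 2 + c.1)) hu ?_ ?_]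
      · exact g2
      · push_cast at ha ⊢
        linear_combination (-2 : ℚ) * ha
      · push_cast at ha hb ⊢
        linear_combination (-2 * (a : ℚ) + u ^ 2 * (3 * e)) * ha - 4 * hb
    refine ⟨hf', by rw [ex_eq h2, h2], by rw [ex_eq h1, h1], ?_⟩
    unfold Conj
    rw [rank_of_fin hf', ex_eq h1, ex_eq h2, zero_add, add_comm]
    exact hev

/-- the model with the point `(e, 0)` at the origin -/
lemma iso_root {A B e : ℤ} (h : e ^ 3 + A * e + B = 0) :
    Iso (Mo (3 * e) (3 * e ^ 2 + A)) (Eo A B) := by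
  have hB : (B : ℚ) = -((e : ℚ) ^ 3 + A * e) := by
    have : (B : ℤ) = -(e ^ 3 + A * e) := by linarith
    rw [this]
    push_cast
    ring
  refine ⟨⟨1, -e, 0, 0⟩, ?_⟩
  ext
  · simp [Mo, Eo, WeierstrassCurve.variableChange_a₁]
  · simp [Mo, Eo, WeierstrassCurve.variableChange_a₂]
  · simp [Mo, Eo, WeierstrassCurve.variableChange_a₃]
  · simp only [Mo, Eo, WeierstrassCurve.variableChange_a₄]
    push_cast
    simp
    ring
  · simp only [Mo, Eo, WeierstrassCurve.variableChange_a₆, hB]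
    push_cast
    simp
    ring

end Pool.Agent.Q52.ISO
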