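import Pool.Agent.Q52.ISO.Gen
import Pool.Agent.Y535.RZ.SEL17

/-!
# Selmer groups of 2-isogenies: the parity of the dimensions
-/

set_option autoImplicit false

namespace Pool.Agent.Q52.ISO

open Finset Pool.Agent.W262.RK Pool.Agent.W307.RT Pool.Agent.W307.RS Pool.Agent.W307.SE
  Pool.Agent.W307.FK Pool.Agent.Y667.RP Pool.Agent.Y667.RZ Pool.Agent.Y667.PA
  Pool.Agent.Y655.RZ Pool.Agent.Y350.PA

open NumberTheorySymbols jacobiSym

open Pool.Agent.Y535.RZ (Dat)

/-- the finite facts about the local conditions of one isogeny -/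
structure QH (i : Fin 3) (Q : (Bool → Bool → Bool → Bool → Prop) → Bool → Bool → Bool → Bool →
    Prop) : Prop where
  xc : ∀ L, XC L → XC (Q L)
  c4 : ∀ j neg, Nat.card {x : XX // LX (Q (LR j neg)) x} = 4
  ct : ∀ j neg, Nat.card {x : XX // LX (Q (LR j neg)) x ∧ LX LU x} = 2 ^ tq i j neg
  iso : ∀ j neg e v w h g, Q (LR j neg) v w h g →
    qb e false false false false v w h g = false
  d4 : Nat.card {x : XX // LX (Q L1) x} = 4
  dt : Nat.card {x : XX // LX (Q L1) x ∧ LX LU x} = 2 ^ (if i = 0 then 1 else 2)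
  iso' : ∀ v w h g, Q L1 v w h g → qb false false false false false v w h g = false

set_option maxRecDepth 100000 in
lemma qh0 : QH 0 q0 := by
  refine ⟨fun L => xc0, fun j neg => (fin_q0 j neg).1, fun j neg => (fin_q0 j neg).2, ?_, ?_, ?_,
    ?_⟩
  · intro j neg e v w h g h1
    revert h1
    unfold q0 LR qb Pool.Agent.Y667.RP.hb
    revert neg e v w h g
    fin_cases j <;> decide
  · unfold LX q0 L1
    exact key_card _ _ (by decide)
  · unfold LX q0 L1 LU
    exact key_card _ _ (by decide)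
  · intro v w h g h1
    revert h1
    unfold q0 L1 qb Pool.Agent.Y667.RP.hb
    revert v w h g
    decide

set_option maxRecDepth 100000 in
lemma qh1 : QH 1 q1 := by
  refine ⟨fun L => xc1, fun j neg => (fin_q1 j neg).1, fun j neg => (fin_q1 j neg).2, ?_, ?_, ?_,
    ?_⟩
  · intro j neg e v w h g h1
    revert h1
    unfold q1 LR qb Pool.Agent.Y667.RP.hb
    revert neg e v w h g
    fin_cases j <;> decide
  · unfold LX q1 L1
    exact key_card _ _ (by decide)
  · unfold LX q1 L1 LU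
    exact key_card _ _ (by decide)
  · intro v w h g h1
    revert h1
    unfold q1 L1 qb Pool.Agent.Y667.RP.hb
    revert v w h g
    decide

set_option maxRecDepth 100000 in
lemma qh2 : QH 2 q2 := by
  refine ⟨fun L => xc2, fun j neg => (fin_q2 j neg).1, fun j neg => (fin_q2 j neg).2, ?_, ?_, ?_,
    ?_⟩
  · rintro j neg e v w h g ⟨h2, a, b, c, d, h1, rfl, rfl⟩
    revert h2 h1
    unfold LR qb Pool.Agent.Y667.RP.hb
    revert neg e v h a b c d
    fin_cases j <;> decide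
  · unfold LX q2 L1
    exact key_card _ _ (by decide)
  · unfold LX q2 L1 LU
    exact key_card _ _ (by decide)
  · intro v w h g h1
    revert h1
    unfold q2 L1 qb Pool.Agent.Y667.RP.hb
    revert v w h g
    decide

lemma neg_pow_card (S : Finset ℕ) (P : ℕ → Prop) [DecidablePred P] :
    (-1 : ℤ) ^ (S.filter P).card = ∏ p ∈ S, if P p then -1 else 1 := by
  rw [prod_ite, prod_const, prod_const_one, mul_one]

lemma cls_of {s : Fin 3 → ℕ} (hs : Squarefree (∏ j, s j)) {p : ℕ} (hp : p.Prime) {j l : Fin 3}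
    (hj : p ∣ s j) (hl : p ∣ s l) : l = j := by
  by_contra hlj
  have h1 : s l * s j ∣ ∏ j, s j := by
    rw [← mul_prod_erase univ s (mem_univ j), mul_comm]
    exact Nat.mul_dvd_mul_left _ (dvd_prod_of_mem s (mem_erase.2 ⟨hlj, mem_univ l⟩))
  have h2 := hs p ((Nat.mul_dvd_mul hl hj).trans h1)
  exact hp.one_lt.ne' (Nat.isUnit_iff.1 h2)

section

variable {s : Fin 3 → ℕ}

lemma J_ite {p : ℕ} (hp : p.Prime) {x : ℤ} (hx : ¬ (p : ℤ) ∣ x) (E : Finset ℕ)
    (h : p ∈ E ↔ J(x | p) = -1) : (if p ∈ E then (-1 : ℤ) else 1) = J(x | p) := by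
  have hg : x.gcd p = 1 := by
    rw [Int.gcd_comm, ← Int.isCoprime_iff_gcd_eq_one]
    exact ((Nat.prime_iff_prime_int.1 hp).coprime_iff_not_dvd).2 hx
  rcases jacobiSym.eq_one_or_neg_one hg with h1 | h1
  · rw [if_neg (fun h2 => by rw [h.1 h2] at h1; norm_num at h1), h1]
  · rw [if_pos (h.2 h1), h1]

/-- the signs of the three classes -/
lemma signs (hs : Squarefree (∏ j, s j)) (hodd : Odd (∏ j, s j))
    (hrel : (s 0 : ℤ) - s 1 = 32 * s 2) (m0 : s 0 % 8 = 1) (m1 : s 1 % 8 = 1) (j : Fin 3) :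
    ∏ p ∈ (s j).primeFactors,
      (if p ∈ sgF (s 0) (s 1) (∏ j, s j) then (-1 : ℤ) else 1) = J((s 1 : ℤ) | s 0) := by
  have hD : Dat s 1 := ⟨hs, hodd, Nat.coprime_one_right _, hrel, one_pos⟩
  have o0 : Odd (s 0) := by rw [Nat.odd_iff]; omega
  have o1 : Odd (s 1) := by rw [Nat.odd_iff]; omega
  have o2 : Odd (s 2) := Odd.of_dvd_nat hodd (hD.sj_dvd 2)
  have c0 : (s 0 : ℕ).Coprime (s 1) := hD.cop01
  have n0 : J(-1 | s 0) = 1 := by
    rw [jacobiSym.at_neg_one o0, ZMod.χ₄_nat_one_mod_four (by omega)]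
  have n1 : J(-1 | s 1) = 1 := by
    rw [jacobiSym.at_neg_one o1, ZMod.χ₄_nat_one_mod_four (by omega)]
  have n2 : J(2 | s 0) = 1 := by
    rw [jacobiSym.at_two o0, ZMod.χ₈_nat_eq_if_mod_eight]
    rw [if_neg (by omega), if_pos (by omega)]
  have hmem : ∀ (j : Fin 3) (p : ℕ), p ∈ (s j).primeFactors → p.Prime ∧ p ∣ s j := fun j p hp =>
    ⟨Nat.prime_of_mem_primeFactors hp, Nat.dvd_of_mem_primeFactors hp⟩
  have hj3 : j = 0 ∨ j = 1 ∨ j = 2 := by fin_cases j <;> simp
  rcases hj3 with rfl | rfl | rfl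
  · have h1 : ∏ p ∈ (s 0).primeFactors,
        (if p ∈ sgF (s 0) (s 1) (∏ j, s j) then (-1 : ℤ) else 1) =
        ∏ p ∈ (s 0).primeFactors, J(-(s 1 : ℤ) | p) := by
      refine prod_congr rfl fun p hp => ?_
      obtain ⟨hpp, hd⟩ := hmem 0 p hp
      refine J_ite hpp ?_ _ ((hD.memE hpp (hd.trans (hD.sj_dvd 0))).1 hd)
      rw [dvd_neg, Int.natCast_dvd_natCast]
      exact Pool.Agent.Y535.RZ.cop_nd hpp c0 hd
    rw [h1, jac_sqf (hD.sqj 0), neg_eq_neg_one_mul, jacobiSym.mul_left, n0, one_mul]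
  · have h1 : ∏ p ∈ (s 1).primeFactors,
        (if p ∈ sgF (s 0) (s 1) (∏ j, s j) then (-1 : ℤ) else 1) =
        ∏ p ∈ (s 1).primeFactors, J(-(s 0 : ℤ) | p) := by
      refine prod_congr rfl fun p hp => ?_
      obtain ⟨hpp, hd⟩ := hmem 1 p hp
      refine J_ite hpp ?_ _ ((hD.memE hpp (hd.trans (hD.sj_dvd 1))).2.1 hd)
      rw [dvd_neg, Int.natCast_dvd_natCast]
      exact Pool.Agent.Y535.RZ.cop_nd hpp c0.symm hd
    rw [h1, jac_sqf (hD.sqj 1), neg_eq_neg_one_mul, jacobiSym.mul_left, n1, one_mul]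
    exact jacobiSym.quadratic_reciprocity_one_mod_four (by omega) o1
  · have h1 : ∏ p ∈ (s 2).primeFactors,
        (if p ∈ sgF (s 0) (s 1) (∏ j, s j) then (-1 : ℤ) else 1) =
        ∏ p ∈ (s 2).primeFactors, J((s 0 : ℤ) | p) := by
      refine prod_congr rfl fun p hp => ?_
      obtain ⟨hpp, hd⟩ := hmem 2 p hp
      refine J_ite hpp ?_ _ ((hD.memE hpp (hd.trans (hD.sj_dvd 2))).2.2 hd)
      rw [Int.natCast_dvd_natCast]
      exact fun h' => Pool.Agent.Y535.RZ.cop_nd hpp hD.cop012.symm hd (h'.mul_right _)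
    rw [h1, jac_sqf (hD.sqj 2)]
    rw [jacobiSym.quadratic_reciprocity_one_mod_four (by omega) o2]
    have h2 : J((s 1 : ℤ) | s 0) = J((-1) * 2 * 2 * 2 * 2 * 2 * (s 2 : ℤ) | s 0) := by
      apply jacobiSym.mod_left'
      have : (s 1 : ℤ) = (-1) * 2 * 2 * 2 * 2 * 2 * (s 2 : ℤ) + s 0 := by linarith
      rw [this, Int.add_emod_right]
    rw [h2]
    simp only [jacobiSym.mul_left, n0, n2, one_mul]

/-- the product over all the primes -/
lemma prod_all (hs : Squarefree (∏ j, s j)) (f : ℕ → ℤ) :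
    ∏ p ∈ (∏ j, s j).primeFactors, f p = (∏ p ∈ (s 0).primeFactors, f p) *
      (∏ p ∈ (s 1).primeFactors, f p) * ∏ p ∈ (s 2).primeFactors, f p := by
  rw [prod3] at hs ⊢
  have h1 : (s 0 * s 1).Coprime (s 2) := Nat.coprime_of_squarefree_mul hs
  have h2 : (s 0).Coprime (s 1) :=
    Nat.coprime_of_squarefree_mul (hs.squarefree_of_dvd (dvd_mul_right _ _))
  rw [h1.primeFactors_mul, prod_union h1.disjoint_primeFactors, h2.primeFactors_mul,
    prod_union h2.disjoint_primeFactors]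

lemma even_of {n : ℕ} (h : (-1 : ℤ) ^ n = 1) : Even n := by
  rcases Nat.even_or_odd n with h1 | h1
  · exact h1
  · rw [h1.neg_one_pow] at h
    norm_num at h

lemma J_pm {x : ℤ} {n : ℕ} (h : x.gcd n = 1) : J(x | n) * J(x | n) = 1 := by
  rcases jacobiSym.eq_one_or_neg_one h with h1 | h1 <;> rw [h1] <;> norm_num

/-- the parity of the number of the primes with negative sign -/
lemma even_E (hs : Squarefree (∏ j, s j)) (hodd : Odd (∏ j, s j))
    (hrel : (s 0 : ℤ) - s 1 = 32 * s 2) (m0 : s 0 % 8 = 1) (m1 : s 1 % 8 = 1) (j : Fin 3) :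
    Even ((sgF (s 0) (s 1) (∏ j, s j)).card +
      ((s j).primeFactors.filter (fun p => p ∈ sgF (s 0) (s 1) (∏ j, s j))).card) := by
  have hD : Dat s 1 := ⟨hs, hodd, Nat.coprime_one_right _, hrel, one_pos⟩
  have hg : ((s 1 : ℤ)).gcd (s 0) = 1 := by
    have := hD.cop01.symm
    exact_mod_cast this
  apply even_of
  have hE : sgF (s 0) (s 1) (∏ j, s j) =
      (∏ j, s j).primeFactors.filter (fun p => p ∈ sgF (s 0) (s 1) (∏ j, s j)) := by
    rw [eq_comm, filter_mem_eq_inter, inter_eq_right]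
    exact filter_subset _ _
  have h1 : (-1 : ℤ) ^ (sgF (s 0) (s 1) (∏ j, s j)).card = J((s 1 : ℤ) | s 0) := by
    conv_lhs => rw [hE]
    rw [neg_pow_card, prod_all hs, signs hs hodd hrel m0 m1 0, signs hs hodd hrel m0 m1 1,
      signs hs hodd hrel m0 m1 2, J_pm hg, one_mul]
  rw [pow_add, h1, neg_pow_card, signs hs hodd hrel m0 m1 j]
  exact J_pm hg

/-- the parity for the twist -/
lemma even_tw (hs : Squarefree (∏ j, s j)) (hodd : Odd (∏ j, s j))
    (hrel : (s 0 : ℤ) - s 1 = 32 * s 2) (m0 : s 0 % 8 = 1) (m1 : s 1 % 8 = 1)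
    (h17 : ¬ 17 ∣ ∏ j, s j) (n0 : s 0 % 17 = 1) (n1 : s 1 % 17 = 15) (j : Fin 3) :
    Even ((sgF (s 0) (s 1) (∏ j, s j)).card +
      ((s j).primeFactors.filter
        (fun p => p ∈ tw (∏ j, s j) (sgF (s 0) (s 1) (∏ j, s j)))).card +
      (if j = 2 then 1 else 0)) := by
  have hD : Dat s 1 := ⟨hs, hodd, Nat.coprime_one_right _, hrel, one_pos⟩
  have h0 := even_E hs hodd hrel m0 m1 j
  apply even_of
  have h1 : (-1 : ℤ) ^ ((s j).primeFactors.filter
        (fun p => p ∈ tw (∏ j, s j) (sgF (s 0) (s 1) (∏ j, s j)))).card =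
      (-1 : ℤ) ^ ((s j).primeFactors.filter
        (fun p => p ∈ sgF (s 0) (s 1) (∏ j, s j))).card * J(17 | s j) := by
    rw [neg_pow_card, neg_pow_card, ← jac_sqf (hD.sqj j), ← prod_mul_distrib]
    refine prod_congr rfl fun p hp => ?_
    have hpp := Nat.prime_of_mem_primeFactors hp
    have hpm : p ∈ (∏ j, s j).primeFactors := Nat.mem_primeFactors.2
      ⟨hpp, (Nat.dvd_of_mem_primeFactors hp).trans (hD.sj_dvd j), hs.ne_zero⟩
    have hp17 : p ≠ 17 := by
      rintro rfl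
      exact h17 (Nat.dvd_of_mem_primeFactors hpm)
    have hg : (17 : ℤ).gcd p = 1 := by
      have : Nat.Coprime 17 p := (Nat.coprime_primes p17 hpp).2 (Ne.symm hp17)
      exact_mod_cast this
    have htw : p ∈ tw (∏ j, s j) (sgF (s 0) (s 1) (∏ j, s j)) ↔
        ¬ (p ∈ sgF (s 0) (s 1) (∏ j, s j) ↔ J(17 | p) = -1) := by
      unfold tw
      rw [mem_filter]
      exact and_iff_right hpm
    rcases jacobiSym.eq_one_or_neg_one hg with h3 | h3
    · have h4 : ¬ J(17 | p) = -1 := by rw [h3]; norm_num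
      by_cases h5 : p ∈ sgF (s 0) (s 1) (∏ j, s j)
      · rw [if_pos h5, if_pos (htw.2 fun h6 => h4 (h6.1 h5)), h3]
        norm_num
      · rw [if_neg h5, if_neg (fun h6 => (htw.1 h6)
          ⟨fun h7 => absurd h7 h5, fun h7 => absurd h7 h4⟩), h3]
        norm_num
    · by_cases h5 : p ∈ sgF (s 0) (s 1) (∏ j, s j)
      · rw [if_pos h5, if_neg (fun h6 => (htw.1 h6) ⟨fun _ => h3, fun _ => h5⟩), h3]
        norm_num
      · rw [if_neg h5, if_pos (htw.2 fun h6 => h5 (h6.2 h3)), h3]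
        norm_num
  have h2 : J(17 | s j) = if j = 2 then -1 else 1 := by
    have o : Odd (s j) := Odd.of_dvd_nat hodd (hD.sj_dvd j)
    have h3 : J(((17 : ℕ) : ℤ) | s j) = J((s j : ℤ) | 17) :=
      jacobiSym.quadratic_reciprocity_one_mod_four (by norm_num) o
    have h4 : ((17 : ℕ) : ℤ) = 17 := by norm_num
    rw [h4] at h3
    rw [h3]
    have hj3 : j = 0 ∨ j = 1 ∨ j = 2 := by fin_cases j <;> simp
    rcases hj3 with rfl | rfl | rfl
    · rw [if_neg (by decide), jacobiSym.mod_left' (b := 17) (a₂ := 1) (by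
        show (s 0 : ℤ) % 17 = 1 % 17
        omega)]
      norm_num
    · rw [if_neg (by decide), jacobiSym.mod_left' (b := 17) (a₂ := 15) (by
        show (s 1 : ℤ) % 17 = 15 % 17
        omega)]
      norm_num
    · rw [if_pos rfl, jacobiSym.mod_left' (b := 17) (a₂ := 7) (by
        show (s 2 : ℤ) % 17 = 7 % 17
        omega)]
      norm_num
  rw [pow_add, pow_add, h1, ← mul_assoc, ← pow_add, h0.neg_one_pow, one_mul, h2]
  split_ifs <;> norm_num

end

end Pool.Agent.Q52.ISO
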