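import Pool.Agent.Q52.ISO.Alg
import Pool.Agent.Y212.RZ.LAG

/-!
# Selmer groups of 2-isogenies: the parity of the dimensions, assembly
-/

set_option autoImplicit false

namespace Pool.Agent.Q52.ISO

open Finset Pool.Agent.W262.RK Pool.Agent.W307.RT Pool.Agent.W307.RS Pool.Agent.W307.SE
  Pool.Agent.W307.FK Pool.Agent.Y667.RP Pool.Agent.Y667.RZ Pool.Agent.Y667.PA
  Pool.Agent.Y655.RZ Pool.Agent.Y350.PA

open Pool.Agent.Y667.ISO (GA GB pr0 pr1 pr2 in0 in1 in2)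

lemma vg_prod (M : ℕ) (P P' : ℕ → Bool → Bool → Prop) :
    VG M (fun p v w h g => P p v h ∧ P' p w g) = GB M P ×ˢ GA M P' := by
  ext ⟨x, y⟩
  constructor
  · rintro ⟨h1, h2, h3, h4, h5, h6, h7⟩
    exact ⟨⟨⟨h1, fun q hq hd => (h5 q hq hd).mul_left _, fun p hp => (h7 p hp).1⟩, h3, h4⟩,
      h2, h6, fun p hp => (h7 p hp).2⟩
  · rintro ⟨⟨⟨h1, h5, h7⟩, h3, h4⟩, h2, h6, h8⟩
    refine ⟨h1, h2, h3, h4, fun q hq hd => ?_, h6, fun p hp => ⟨h7 p hp, h8 p hp⟩⟩
    rcases (hq.dvd_mul).1 (h5 q hq hd) with h | h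
    · exfalso
      have h9 := (Nat.prime_dvd_prime_iff_eq hq Nat.prime_two).1 h
      subst h9
      have h10 : (2 : ℤ) ∣ x := by exact_mod_cast hd
      have h11 : x % 8 = 1 := h4
      omega
    · exact h

lemma two_pow {x y k : ℕ} (h : x * y = 2 ^ k) :
    ∃ f1 f2 : ℕ, x = 2 ^ f1 ∧ y = 2 ^ f2 ∧ f1 + f2 = k := by
  obtain ⟨f1, -, hf1⟩ := (Nat.dvd_prime_pow Nat.prime_two).1 (Dvd.intro _ h)
  obtain ⟨f2, -, hf2⟩ := (Nat.dvd_prime_pow Nat.prime_two).1 (Dvd.intro_left _ h)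
  refine ⟨f1, f2, hf1, hf2, ?_⟩
  rw [hf1, hf2, ← pow_add] at h
  exact Nat.pow_right_injective (le_refl 2) h

section

variable {s : Fin 3 → ℕ}

lemma even_sum_t (hs : Squarefree (∏ j, s j)) (E' : Finset ℕ) (i l : Fin 3) :
    Even (∑ p ∈ (∏ j, s j).primeFactors, (if p ∣ s l then (if p ∈ E' then 1 else
      if i = 0 then 2 else 0) else if i = 0 then 0 else 2) +
      ((s l).primeFactors.filter (fun p => p ∈ E')).card) := by
  have h1 : (s l).primeFactors.filter (fun p => p ∈ E') =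
      (∏ j, s j).primeFactors.filter (fun p => p ∣ s l ∧ p ∈ E') := by
    have hl : s l ∣ ∏ j, s j := dvd_prod_of_mem s (mem_univ l)
    ext p
    rw [mem_filter, mem_filter, Nat.mem_primeFactors, Nat.mem_primeFactors]
    constructor
    · rintro ⟨⟨h1, h2, h3⟩, h4⟩
      exact ⟨⟨h1, h2.trans hl, hs.ne_zero⟩, h2, h4⟩
    · rintro ⟨⟨h1, h2, h3⟩, h4, h5⟩
      exact ⟨⟨h1, h4, (hs.squarefree_of_dvd hl).ne_zero⟩, h5⟩
  rw [h1, card_filter, ← sum_add_distrib]
  refine even_sum _ fun p _ => ?_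
  by_cases h2 : p ∣ s l <;> by_cases h3 : p ∈ E' <;> by_cases h4 : i = 0 <;> simp [h2, h3, h4]

lemma LF_cls (hs : Squarefree (∏ j, s j)) {p : ℕ} (hp : p ∈ (∏ j, s j).primeFactors) :
    ∃ j : Fin 3, p ∣ s j ∧ ∀ E : Finset ℕ, LF s E p = LR j (decide (p ∈ E)) := by
  have hpp := Nat.prime_of_mem_primeFactors hp
  obtain ⟨j, -, hj⟩ := (hpp.prime.dvd_finsetProd_iff _).1 (Nat.dvd_of_mem_primeFactors hp)
  refine ⟨j, hj, fun E => ?_⟩
  funext v w x g
  exact propext (LF_iff hs hpp hj)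

lemma tq_eq (hs : Squarefree (∏ j, s j)) {p : ℕ} (hp : p.Prime) (E' : Finset ℕ) (i : Fin 3)
    {j : Fin 3} (hj : p ∣ s j) : tq i j (decide (p ∈ E')) =
      if p ∣ s (cl i) then (if p ∈ E' then 1 else if i = 0 then 2 else 0) else
        if i = 0 then 0 else 2 := by
  unfold tq
  by_cases h : j = cl i
  · rw [if_pos h, ← h, if_pos hj]
    simp
  · rw [if_neg h, if_neg (fun h' => h (cls_of hs hp h' hj))]

/-- the curve -/
theorem core0 (hs : Squarefree (∏ j, s j)) (hodd : Odd (∏ j, s j))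
    (hrel : (s 0 : ℤ) - s 1 = 32 * s 2) (m0 : s 0 % 8 = 1) (m1 : s 1 % 8 = 1)
    (hS : HS (∏ j, s j)) {i : Fin 3}
    {Q : (Bool → Bool → Bool → Bool → Prop) → Bool → Bool → Bool → Bool → Prop}
    (hQ : QH i Q) : ∃ k : ℕ, (VG (∏ j, s j)
      (fun p => Q (LF s (sgF (s 0) (s 1) (∏ j, s j)) p))).ncard = 2 ^ k ∧
      Even (k + ((∏ j, s j).primeFactors \ sgF (s 0) (s 1) (∏ j, s j)).card) := by
  have hEs : sgF (s 0) (s 1) (∏ j, s j) ⊆ (∏ j, s j).primeFactors := filter_subset _ _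
  have hE := even_E hs hodd hrel m0 m1 (cl i)
  generalize sgF (s 0) (s 1) (∏ j, s j) = E at hEs hE ⊢
  have ht := even_sum_t hs E i (cl i)
  obtain ⟨k, hk, hev⟩ := gen Pool.Agent.Y212.RZ.LAG hs hodd hS (fun p => Q (LF s E p))
    (fun p => hQ.xc _ (xcLF s E p))
    (fun p => if p ∣ s (cl i) then (if p ∈ E then 1 else if i = 0 then 2 else 0) else
        if i = 0 then 0 else 2) (by
      intro p hp
      obtain ⟨j, hj, hL⟩ := LF_cls hs hp
      rw [hL]
      exact hQ.c4 j _) (by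
      intro p hp
      obtain ⟨j, hj, hL⟩ := LF_cls hs hp
      rw [hL]
      have := hQ.ct j (decide (p ∈ E))
      rw [tq_eq hs (Nat.prime_of_mem_primeFactors hp) E i hj] at this
      exact this) (by
      intro p hp v w h g hv
      obtain ⟨j, hj, hL⟩ := LF_cls hs hp
      rw [hL] at hv
      exact hQ.iso j _ _ v w h g hv)
  refine ⟨k, hk, ?_⟩
  have hc := card_sdiff_add_card_eq_card hEs
  generalize (∑ p ∈ (∏ j, s j).primeFactors, if p ∣ s (cl i) then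
    (if p ∈ E then 1 else if i = 0 then 2 else 0) else if i = 0 then 0 else 2) = T at ht hev
  rw [Nat.even_iff] at hE ht hev ⊢
  omega

/-- the twist -/
theorem core17 (hs : Squarefree (∏ j, s j)) (hodd : Odd (∏ j, s j))
    (hrel : (s 0 : ℤ) - s 1 = 32 * s 2) (m0 : s 0 % 8 = 1) (m1 : s 1 % 8 = 1)
    (hS : HS (∏ j, s j)) (h17 : ¬ 17 ∣ ∏ j, s j) (n0 : s 0 % 17 = 1) (n1 : s 1 % 17 = 15)
    {i : Fin 3} {Q : (Bool → Bool → Bool → Bool → Prop) → Bool → Bool → Bool → Bool → Prop}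
    (hQ : QH i Q) : ∃ k : ℕ, (VG (17 * ∏ j, s j)
      (fun p => Q (L17 s (sgF (s 0) (s 1) (∏ j, s j)) p))).ncard = 2 ^ k ∧
      Even (k + ((∏ j, s j).primeFactors \ sgF (s 0) (s 1) (∏ j, s j)).card + 1) := by
  have hEs : sgF (s 0) (s 1) (∏ j, s j) ⊆ (∏ j, s j).primeFactors := filter_subset _ _
  have hE := even_tw hs hodd hrel m0 m1 h17 n0 n1 (cl i)
  generalize sgF (s 0) (s 1) (∏ j, s j) = E at hEs hE ⊢
  have ht := even_sum_t hs (tw (∏ j, s j) E) i (cl i)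
  have hMs : Squarefree (17 * ∏ j, s j) := by
    rw [Nat.squarefree_mul ((p17.coprime_iff_not_dvd).2 h17)]
    exact ⟨p17.prime.irreducible.squarefree, hs⟩
  have hMo : Odd (17 * ∏ j, s j) := Odd.mul (by decide) hodd
  have hS' : HS (17 * ∏ j, s j) := by
    intro σ h
    obtain ⟨p, hp, hd, hJ⟩ := hS σ h
    exact ⟨p, hp, hd.mul_left _, hJ⟩
  have hpf : (17 * ∏ j, s j).primeFactors = insert 17 (∏ j, s j).primeFactors :=
    pf17 hs.ne_zero
  have hn17 : 17 ∉ (∏ j, s j).primeFactors := fun h => h17 (Nat.dvd_of_mem_primeFactors h)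
  have hne : ∀ p ∈ (∏ j, s j).primeFactors, p ≠ 17 := by
    rintro p hp rfl
    exact hn17 hp
  obtain ⟨t, htd⟩ : ∃ t : ℕ → ℕ, t = fun p => if p = 17 then (if i = 0 then 1 else 2) else
      if p ∣ s (cl i) then (if p ∈ tw (∏ j, s j) E then 1 else if i = 0 then 2 else 0) else
        if i = 0 then 0 else 2 := ⟨_, rfl⟩
  obtain ⟨k, hk, hev⟩ := gen Pool.Agent.Y212.RZ.LAG hMs hMo hS' (fun p => Q (L17 s E p))
    (fun p => hQ.xc _ (xcL17 s E p)) t (by
      intro p hp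
      rw [hpf, mem_insert] at hp
      rcases hp with rfl | hp
      · rw [L17_17]
        exact hQ.d4
      · obtain ⟨j, hj, hL⟩ := LF_cls hs hp
        rw [L17_ne s E (hne p hp), hL]
        exact hQ.c4 j _) (by
      intro p hp
      rw [hpf, mem_insert] at hp
      rcases hp with rfl | hp
      · rw [L17_17, htd]
        simp only [if_true]
        exact hQ.dt
      · obtain ⟨j, hj, hL⟩ := LF_cls hs hp
        rw [L17_ne s E (hne p hp), hL, htd]
        simp only [if_neg (hne p hp)]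
        have := hQ.ct j (decide (p ∈ tw (∏ j, s j) E))
        rw [tq_eq hs (Nat.prime_of_mem_primeFactors hp) _ i hj] at this
        exact this) (by
      intro p hp v w h g hv
      rw [hpf, mem_insert] at hp
      rcases hp with rfl | hp
      · rw [L17_17] at hv
        have h1 : sg0 17 (-1) = false := by
          unfold sg0
          rw [decide_eq_false_iff_not]
          show ¬ jacobiSym (-1) 17 = -1
          norm_num
        rw [h1]
        exact hQ.iso' v w h g hv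
      · obtain ⟨j, hj, hL⟩ := LF_cls hs hp
        rw [L17_ne s E (hne p hp), hL] at hv
        exact hQ.iso j _ _ v w h g hv)
  refine ⟨k, hk, ?_⟩
  have hc := card_sdiff_add_card_eq_card hEs
  have h2 : ∑ p ∈ (17 * ∏ j, s j).primeFactors, t p = (if i = 0 then 1 else 2) +
      ∑ p ∈ (∏ j, s j).primeFactors, (if p ∣ s (cl i) then
        (if p ∈ tw (∏ j, s j) E then 1 else if i = 0 then 2 else 0) else
        if i = 0 then 0 else 2) := by
    rw [hpf, sum_insert hn17]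
    congr 1
    · rw [htd]
      simp
    · refine sum_congr rfl fun p hp => ?_
      rw [htd]
      simp only [if_neg (hne p hp)]
  have h3 : (17 * ∏ j, s j).primeFactors.card = (∏ j, s j).primeFactors.card + 1 := by
    rw [hpf, card_insert_of_notMem hn17]
  rw [h2, h3] at hev
  generalize (∑ p ∈ (∏ j, s j).primeFactors, if p ∣ s (cl i) then
    (if p ∈ tw (∏ j, s j) E then 1 else if i = 0 then 2 else 0) else if i = 0 then 0 else 2) = T
    at ht hev
  have h4 : (if cl i = 2 then 1 else 0) + (if i = 0 then 1 else 2) = 2 := by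
    fin_cases i <;> decide
  generalize (if cl i = 2 then 1 else 0) = c1 at h4 hE
  generalize (if i = 0 then 1 else 2) = c2 at h4 hev
  rw [Nat.even_iff] at hE ht hev ⊢
  omega

/-- the three isogenies -/
theorem iso_of {M : ℕ} {L : ℕ → Bool → Bool → Bool → Bool → Prop} {n : ℕ}
    (h : ∀ (i : Fin 3) (Q : (Bool → Bool → Bool → Bool → Prop) → Bool → Bool → Bool → Bool →
      Prop), QH i Q → ∃ k : ℕ, (VG M (fun p => Q (L p))).ncard = 2 ^ k ∧ Even (k + n)) :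
    (∃ f1 f2 : ℕ, (GB M (pr0 L)).ncard = 2 ^ f1 ∧ (GA M (in0 L)).ncard = 2 ^ f2 ∧
      Even (f1 + f2 + n)) ∧
    (∃ f1 f2 : ℕ, (GA M (pr1 L)).ncard = 2 ^ f1 ∧ (GB M (in1 L)).ncard = 2 ^ f2 ∧
      Even (f1 + f2 + n)) ∧
    (∃ f1 f2 : ℕ, (GA M (pr2 L)).ncard = 2 ^ f1 ∧ (GB M (in2 L)).ncard = 2 ^ f2 ∧
      Even (f1 + f2 + n)) := by
  refine ⟨?_, ?_, ?_⟩
  · obtain ⟨k, hk, hev⟩ := h 0 q0 qh0
    have h1 : VG M (fun p => q0 (L p)) = GB M (pr0 L) ×ˢ GA M (in0 L) :=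
      vg_prod M (pr0 L) (in0 L)
    rw [h1, Set.ncard_prod] at hk
    obtain ⟨f1, f2, g1, g2, rfl⟩ := two_pow hk
    exact ⟨f1, f2, g1, g2, hev⟩
  · obtain ⟨k, hk, hev⟩ := h 1 q1 qh1
    have h1 : VG M (fun p => q1 (L p)) = GB M (in1 L) ×ˢ GA M (pr1 L) :=
      vg_prod M (in1 L) (pr1 L)
    rw [h1, Set.ncard_prod] at hk
    obtain ⟨f2, f1, g2, g1, rfl⟩ := two_pow hk
    exact ⟨f1, f2, g1, g2, by rwa [add_comm f1]⟩
  · obtain ⟨k, hk, hev⟩ := h 2 q2 qh2
    have h1 : VG M (fun p => q2 (L p)) = GB M (in2 L) ×ˢ GA M (pr2 L) :=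
      vg_prod M (in2 L) (pr2 L)
    rw [h1, Set.ncard_prod] at hk
    obtain ⟨f2, f1, g2, g1, rfl⟩ := two_pow hk
    exact ⟨f1, f2, g1, g2, by rwa [add_comm f1]⟩

end

end Pool.Agent.Q52.ISO
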