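import Pool.Agent.TH841.NO.Qul
import Pool.Agent.TH841.NO.Qum
import Pool.Agent.TH841.FD.Covl

/-!
# Selmer groups of 2-isogenies: the quartics and the points of the curve
-/

set_option autoImplicit false

namespace Pool.Agent.Q52.ISO

open Pool.Agent.TH841.NO (Qu)
open Pool.Agent.TH841.LS (LocI)
open Pool.Agent.TH231.NO (Scal scal_real scal_padic)

/-- a point of `y² = (x - e₁) (x - e₂) (x - e₃)` with `x - e₁` in the class of `z` -/
def PI (K : Type) [Field K] (e1 e2 e3 z : ℤ) : Prop :=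
  ∃ x y : K, y ≠ 0 ∧ y ^ 2 = (x - e1) * (x - e2) * (x - e3) ∧ IsSquare ((x - e1) * z)

/-- a point of `y² = (x - e₁) (x - e₂) (x - e₃)` with `x - e₁` a square and `x - e₂` in the class
of `z` -/
def PD (K : Type) [Field K] (e1 e2 e3 z : ℤ) : Prop :=
  ∃ x y : K, y ≠ 0 ∧ y ^ 2 = (x - e1) * (x - e2) * (x - e3) ∧ IsSquare (x - (e1 : K)) ∧
    IsSquare ((x - e2) * z)

section

variable {K : Type} [Field K] [CharZero K]

lemma pi_of_locI (H : Scal K) {A B z : ℤ} (hA : A ≠ 0)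
    (hB : B ≠ 0) (hAB : A ≠ B) (hz : z ≠ 0) (h : LocI K A B z) : PI K 0 A B z := by
  obtain ⟨X, Y, r, hX, hY, hr⟩ := h
  have hzK : (z : K) ≠ 0 := by exact_mod_cast hz
  have hABK : (A : K) - B ≠ 0 := sub_ne_zero.2 (by exact_mod_cast hAB)
  by_cases hY0 : Y = 0
  · rw [hY0] at hY
    have h0 : X * (X - A) * (X - B) = 0 := by rw [← hY]; ring
    have hd : ∃ d : K, d ≠ 0 ∧ ∃ M e x y : K, (M ≠ 0 ∨ e ≠ 0) ∧
        (z : K) * M ^ 2 - (A : K) * e ^ 2 = d * x ^ 2 ∧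
        (z : K) * M ^ 2 - (B : K) * e ^ 2 = z * d * y ^ 2 := by
      rcases mul_eq_zero.1 h0 with h1 | h1
      · have h2 := (mul_eq_zero.1 h1).resolve_left hX
        refine ⟨((A : K) - B) / z, div_ne_zero hABK hzK, r, 1, 0, 1, Or.inr one_ne_zero, ?_, ?_⟩
        · linear_combination h2 - hr
        · have e1 : (z : K) * (((A : K) - B) / z) = (A : K) - B := by field_simp
          rw [e1]
          linear_combination h2 - hr
      · refine ⟨(B : K) - A, ?_, r, 1, 1, 0, Or.inr one_ne_zero, ?_, ?_⟩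
        · rw [← neg_sub]
          exact neg_ne_zero.2 hABK
        · linear_combination h1 - hr
        · linear_combination h1 - hr
    obtain ⟨d, hd0, hd⟩ := hd
    obtain ⟨X', Y', hY', hXY, s1, -⟩ :=
      Pool.Agent.TH841.FD.COVLf.core H A B (z : K) d hA hB hAB hzK hd0 hd
    refine ⟨X', Y', hY', ?_, ?_⟩
    · rw [Int.cast_zero, sub_zero]
      exact hXY
    · rw [Int.cast_zero, sub_zero]
      exact s1
  · refine ⟨X, Y, hY0, ?_, ⟨z * r, ?_⟩⟩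
    · rw [Int.cast_zero, sub_zero]
      exact hY
    · rw [Int.cast_zero, sub_zero, hr]
      ring

lemma locI_of_pi {A B z : ℤ} (hz : z ≠ 0) (h : PI K 0 A B z) : LocI K A B z := by
  obtain ⟨x, y, hy, hxy, w, hw⟩ := h
  rw [Int.cast_zero, sub_zero] at hxy hw
  have hzK : (z : K) ≠ 0 := by exact_mod_cast hz
  refine ⟨x, y, w / z, ?_, hxy, ?_⟩
  · rintro rfl
    apply hy
    have : y ^ 2 = 0 := by rw [hxy]; ring
    exact pow_eq_zero_iff two_ne_zero |>.1 this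
  · field_simp
    linear_combination hw

omit [CharZero K] in
lemma pi_shift {e1 e2 e3 z : ℤ} : PI K 0 (e2 - e1) (e3 - e1) z ↔ PI K e1 e2 e3 z := by
  constructor
  · rintro ⟨x, y, hy, hxy, hs⟩
    rw [Int.cast_zero, sub_zero] at hxy hs
    push_cast at hxy
    refine ⟨x + e1, y, hy, ?_, ?_⟩
    · rw [hxy]; ring
    · rwa [add_sub_cancel_right]
  · rintro ⟨x, y, hy, hxy, hs⟩
    refine ⟨x - e1, y, hy, ?_, ?_⟩
    · rw [hxy]; push_cast; ring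
    · rwa [Int.cast_zero, sub_zero]

omit [CharZero K] in
lemma pd_shift {e1 e2 e3 z : ℤ} :
    Pool.Agent.W307.SE.Loc K (e2 - e1) (e3 - e1) 1 z ↔ PD K e1 e2 e3 z := by
  constructor
  · rintro ⟨x, y, hy, hxy, h1, hs⟩
    rw [Int.cast_one, mul_one] at h1
    push_cast at hxy hs
    refine ⟨x + e1, y, hy, ?_, ?_, ?_⟩
    · rw [hxy]; ring
    · rwa [add_sub_cancel_right]
    · convert hs using 1; ring
  · rintro ⟨x, y, hy, hxy, h1, hs⟩
    refine ⟨x - e1, y, hy, ?_, ?_, ?_⟩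
    · rw [hxy]; push_cast; ring
    · rwa [Int.cast_one, mul_one]
    · convert hs using 1; push_cast; ring

/-- the converse of `QUM` -/
lemma qu_of_loc {A B z : ℤ} (hz : z ≠ 0) (hd : z ∣ (A - B) ^ 2)
    (h : Pool.Agent.W307.SE.Loc K A B 1 z) : Qu K (2 * (A + B)) ((A - B) ^ 2) z := by
  obtain ⟨c, hc⟩ := hd
  have hq : (A - B) ^ 2 / z = c := by
    rw [hc]
    exact Int.mul_ediv_cancel_left c hz
  have hzK : (z : K) ≠ 0 := by exact_mod_cast hz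
  have hcK : ((A : K) - B) ^ 2 = z * c := by exact_mod_cast congrArg (Int.cast : ℤ → K) hc
  obtain ⟨x, y, hy, hxy, ⟨r, hr⟩, w, hw⟩ := h
  rw [Int.cast_one, mul_one] at hr
  have hy2 : y ^ 2 ≠ 0 := pow_ne_zero 2 hy
  rw [hxy] at hy2
  have hx : x ≠ 0 := left_ne_zero_of_mul (left_ne_zero_of_mul hy2)
  have hxA : x - A ≠ 0 := right_ne_zero_of_mul (left_ne_zero_of_mul hy2)
  have hr0 : r ≠ 0 := by
    rintro rfl
    apply hx
    rw [hr]; ring
  have hw0 : w ≠ 0 := by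
    rintro rfl
    rw [mul_zero] at hw
    exact mul_ne_zero hxA hzK hw
  obtain ⟨v, hv⟩ : ∃ v, v = y / (r * w) := ⟨_, rfl⟩
  have hy' : y = v * (r * w) := by rw [hv]; field_simp
  have eA : (A : K) = r ^ 2 - w ^ 2 / z := by
    field_simp
    linear_combination (-1 : K) * hw + z * hr
  have eB : (B : K) = r ^ 2 - z * v ^ 2 := by
    have h1 : w ^ 2 * (r ^ 2 * z * v ^ 2) = w ^ 2 * (r ^ 2 * (r ^ 2 - B)) := by
      have h2 : y ^ 2 * z = x * (x - B) * (w * w) := by rw [hxy, ← hw]; ring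
      rw [hy', hr] at h2
      linear_combination h2
    have h3 := mul_left_cancel₀ (pow_ne_zero 2 hw0) h1
    have h4 : r ^ 2 * (z * v ^ 2) = r ^ 2 * (r ^ 2 - B) := by linear_combination h3
    have h5 := mul_left_cancel₀ (pow_ne_zero 2 hr0) h4
    linear_combination h5
  have ec : (c : K) = ((A : K) - B) ^ 2 / z := by
    rw [eq_div_iff hzK, hcK]; ring
  refine ⟨2 * r * (w / z + v), w / z + v, 1, Or.inr one_ne_zero, ?_⟩
  rw [hq, ec]
  push_cast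
  rw [eA, eB]
  field_simp
  ring

end

/-- the quartics of the isogeny and the points of the curve -/
lemma qu_pi {e1 e2 e3 z : ℤ} (h12 : e1 ≠ e2) (h13 : e1 ≠ e3) (h23 : e2 ≠ e3) (hz : z ≠ 0)
    (hd : z ∣ (e2 - e1) * (e3 - e1)) :
    (Qu ℝ (2 * e1 - e2 - e3) ((e2 - e1) * (e3 - e1)) z ↔ PI ℝ e1 e2 e3 z) ∧
    ∀ (p : ℕ) [Fact p.Prime], (Qu ℚ_[p] (2 * e1 - e2 - e3) ((e2 - e1) * (e3 - e1)) z ↔
      PI ℚ_[p] e1 e2 e3 z) := by
  have hA : e2 - e1 ≠ 0 := sub_ne_zero.2 (Ne.symm h12)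
  have hB : e3 - e1 ≠ 0 := sub_ne_zero.2 (Ne.symm h13)
  have hAB : e2 - e1 ≠ e3 - e1 := by omega
  have e : 2 * e1 - e2 - e3 = -((e2 - e1) + (e3 - e1)) := by ring
  obtain ⟨g1, g2⟩ := Pool.Agent.TH841.NO.QULf.qul (e2 - e1) (e3 - e1) z hA hB hAB hz hd
  rw [e]
  refine ⟨?_, fun p _ => ?_⟩
  · rw [g1, ← pi_shift]
    exact ⟨pi_of_locI scal_real hA hB hAB hz, locI_of_pi hz⟩
  · rw [g2 p, ← pi_shift]
    exact ⟨pi_of_locI (scal_padic p) hA hB hAB hz, locI_of_pi hz⟩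

/-- the quartics of the dual isogeny and the points of the curve -/
lemma qu_pd {e1 e2 e3 z : ℤ} (h12 : e1 ≠ e2) (h13 : e1 ≠ e3) (h23 : e2 ≠ e3) (hz : z ≠ 0)
    (hd : z ∣ (e2 - e3) ^ 2) :
    (Qu ℝ (-2 * (2 * e1 - e2 - e3)) ((e2 - e3) ^ 2) z ↔ PD ℝ e1 e2 e3 z) ∧
    ∀ (p : ℕ) [Fact p.Prime], (Qu ℚ_[p] (-2 * (2 * e1 - e2 - e3)) ((e2 - e3) ^ 2) z ↔
      PD ℚ_[p] e1 e2 e3 z) := by
  have hA : e2 - e1 ≠ 0 := sub_ne_zero.2 (Ne.symm h12)
  have hB : e3 - e1 ≠ 0 := sub_ne_zero.2 (Ne.symm h13)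
  have hAB : e2 - e1 ≠ e3 - e1 := by omega
  have e : -2 * (2 * e1 - e2 - e3) = 2 * ((e2 - e1) + (e3 - e1)) := by ring
  have e' : (e2 - e3) ^ 2 = ((e2 - e1) - (e3 - e1)) ^ 2 := by ring
  rw [e'] at hd
  obtain ⟨g1, g2⟩ := Pool.Agent.TH841.NO.QUMf.qum (e2 - e1) (e3 - e1) z hA hB hAB hz hd
  rw [e, e']
  refine ⟨?_, fun p _ => ?_⟩
  · rw [← pd_shift]
    exact ⟨g1, qu_of_loc hz hd⟩
  · rw [← pd_shift]
    exact ⟨g2 p, qu_of_loc hz hd⟩

end Pool.Agent.Q52.ISO
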