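import Pool.Agent.Y350.PA.ABSB
import Pool.Agent.Y667.ISO.Stm

/-!
# Selmer groups of 2-isogenies: the parity of the dimensions (linear algebra)
-/

set_option autoImplicit false

namespace Pool.Agent.Q52.ISO

open Finset Pool.Agent.W262.RK Pool.Agent.W307.RT Pool.Agent.W307.RS Pool.Agent.W307.SE
  Pool.Agent.W307.FK Pool.Agent.Y667.RP Pool.Agent.Y667.RZ Pool.Agent.Y667.PA
  Pool.Agent.Y655.RZ Pool.Agent.Y350.PA

/-- the order of the group of the classes with the local conditions `L` -/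
theorem gen (hLAG : St_LAG) {M : ℕ} (hM : Squarefree M) (hMo : Odd M) (hS : HS M)
    (L : ℕ → Bool → Bool → Bool → Bool → Prop) (hX : ∀ p, XC (L p)) (t : ℕ → ℕ)
    (h4 : ∀ p ∈ M.primeFactors, Nat.card {x : XX // LX (L p) x} = 4)
    (ht : ∀ p ∈ M.primeFactors, Nat.card {x : XX // LX (L p) x ∧ LX LU x} = 2 ^ t p)
    (hq : ∀ p ∈ M.primeFactors, ∀ v w h g, L p v w h g →
      qb (sg0 p (-1)) false false false false v w h g = false) :
    ∃ k : ℕ, (VG M L).ncard = 2 ^ k ∧
      Even (k + M.primeFactors.card + ∑ p ∈ M.primeFactors, t p) := by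
  classical
  have hp : ∀ p ∈ M.primeFactors, p.Prime := fun p hp => Nat.prime_of_mem_primeFactors hp
  have hxM : ∀ q : ℕ, q.Prime → (q : ℤ) ∣ 1 → q ∣ M := by
    intro q hq h
    exact absurd (Int.natCast_dvd_natCast.1 (by simpa using h)) (fun h' : q ∣ 1 =>
      hq.one_lt.ne' (Nat.dvd_one.1 h'))
  have hyM : ∀ q : ℕ, q.Prime → (q : ℤ) ∣ 1 → q ∣ 2 * M := fun q hq h =>
    (hxM q hq h).mul_left _
  have hQA := QQ_AM hMo (x0 := 1) (y0 := 1) squarefree_one one_pos (by norm_num) squarefree_one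
    hxM hyM
  have hfA := finrank_AM hM hMo hS (x0 := 1) (y0 := 1) squarefree_one one_pos (by norm_num)
    squarefree_one hxM hyM
  have hQW := QQ_WL (N := M.primeFactors) (e := fun p => sg0 p (-1))
    (a := fun p => sgn p 1) (b := fun p => dv p 1)
    (c := fun p => dv p 1) (d := fun p => sgn p 1) (L := L)
    (hL := hX) (by
      intro p hpN v w h g hL
      rw [dv_one' (hp p hpN), sgn_one']
      exact hq p hpN v w h g hL)
  have hQW' := QQ_WL (N := M.primeFactors) (e := fun p => sg0 p (-1))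
    (a := fun p => sgn p 1) (b := fun p => dv p 1)
    (c := fun p => dv p 1) (d := fun p => sgn p 1) (L := fun _ => LU)
    (hL := fun _ => xcLU) (by
      intro p hpN v w h g hL
      rw [dv_one' (hp p hpN), sgn_one']
      exact qbLU hL)
  have hfW : Module.finrank (ZMod 2) (WL M.primeFactors L hX) = 2 * M.primeFactors.card := by
    apply finrank_of_card
    rw [card_WL, prod_congr rfl (g := fun _ => 4), prod_const, pow_mul]
    · norm_num
    · intro p hpN
      exact h4 p hpN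
  have hfW' : Module.finrank (ZMod 2) (WL M.primeFactors (fun _ => LU) (fun _ => xcLU)) =
      2 * M.primeFactors.card := by
    apply finrank_of_card
    rw [card_WL, prod_congr rfl (g := fun _ => 4), prod_const, pow_mul]
    · norm_num
    · intro p _
      exact card_LU
  have hfI : Module.finrank (ZMod 2) (WL M.primeFactors L hX ⊓
      WL M.primeFactors (fun _ => LU) (fun _ => xcLU) :
        Submodule (ZMod 2) (M.primeFactors → XX)) = ∑ p ∈ M.primeFactors, t p := by
    apply finrank_of_card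
    rw [inf_WL, card_WL, ← prod_pow_eq_pow_sum]
    apply prod_congr rfl
    intro p hpN
    exact ht p hpN
  have hfU : Module.finrank (ZMod 2) (AM M ⊓
      WL M.primeFactors (fun _ => LU) (fun _ => xcLU) :
        Submodule (ZMod 2) (M.primeFactors → XX)) = M.primeFactors.card + 2 := by
    apply finrank_of_card
    rw [card_inf hMo hS]
    exact card_U hM hMo
  have key := hLAG (M.primeFactors → XX) (BB M.primeFactors (fun p => b2z (sg0 p (-1))))
    (QQ M.primeFactors (fun p => b2z (sg0 p (-1))) (fun p => b2z (sgn p 1))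
      (fun p => b2z (dv p 1)) (fun p => b2z (dv p 1))
      (fun p => b2z (sgn p 1))) (2 * M.primeFactors.card) (AM M)
    (WL M.primeFactors L hX) (WL M.primeFactors (fun _ => LU) (fun _ => xcLU))
    (by rw [finrank_V]; ring) (BB_nondeg _ _) (QQ_add _ _ _ _ _ _) hQA hQW hQW' hfA hfW hfW'
  refine ⟨Module.finrank (ZMod 2) (AM M ⊓ WL M.primeFactors L hX :
      Submodule (ZMod 2) (M.primeFactors → XX)), ?_, ?_⟩
  · rw [← card_inf hMo hS L hX, card_sub]
  · rw [hfI, hfU] at key
    generalize (∑ p ∈ M.primeFactors, t p) = x at key ⊢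
    generalize Module.finrank (ZMod 2) (AM M ⊓ WL M.primeFactors L hX :
      Submodule (ZMod 2) (M.primeFactors → XX)) = z at key ⊢
    rw [Nat.even_iff] at key ⊢
    omega

/-- the conditions of the first isogeny and its dual -/
def q0 (L : Bool → Bool → Bool → Bool → Prop) (v w h g : Bool) : Prop :=
  (∃ w' g', L v w' h g') ∧ L false w false g

/-- the conditions of the second isogeny and its dual -/
def q1 (L : Bool → Bool → Bool → Bool → Prop) (v w h g : Bool) : Prop :=
  L v false h false ∧ ∃ v' h', L v' w h' g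

/-- the conditions of the third isogeny and its dual -/
def q2 (L : Bool → Bool → Bool → Bool → Prop) (v w h g : Bool) : Prop :=
  L v v h h ∧ ∃ a b c d, L a b c d ∧ w = xor a b ∧ g = xor c d

/-- the three isogenies -/
def qq (i : Fin 3) (L : Bool → Bool → Bool → Bool → Prop) : Bool → Bool → Bool → Bool → Prop :=
  if i = 0 then q0 L else if i = 1 then q1 L else q2 L

lemma xc0 {L : Bool → Bool → Bool → Bool → Prop} (hL : XC L) : XC (q0 L) :=
  ⟨⟨⟨false, false, hL.1⟩, hL.1⟩, fun _ _ _ _ _ _ _ _ ⟨⟨w, g, h1⟩, h2⟩ ⟨⟨w', g', h1'⟩, h2'⟩ =>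
    ⟨⟨xor w w', xor g g', hL.2 _ _ _ _ _ _ _ _ h1 h1'⟩, hL.2 _ _ _ _ _ _ _ _ h2 h2'⟩⟩

lemma xc1 {L : Bool → Bool → Bool → Bool → Prop} (hL : XC L) : XC (q1 L) :=
  ⟨⟨hL.1, ⟨false, false, hL.1⟩⟩, fun _ _ _ _ _ _ _ _ ⟨h2, ⟨w, g, h1⟩⟩ ⟨h2', ⟨w', g', h1'⟩⟩ =>
    ⟨hL.2 _ _ _ _ _ _ _ _ h2 h2', ⟨xor w w', xor g g', hL.2 _ _ _ _ _ _ _ _ h1 h1'⟩⟩⟩

lemma xor4 : ∀ a b a' b' : Bool, xor (xor a b) (xor a' b') = xor (xor a a') (xor b b') := by
  decide

lemma xc2 {L : Bool → Bool → Bool → Bool → Prop} (hL : XC L) : XC (q2 L) := by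
  refine ⟨⟨hL.1, false, false, false, false, hL.1, rfl, rfl⟩, ?_⟩
  rintro _ _ _ _ _ _ _ _ ⟨h2, a, b, c, d, h1, rfl, rfl⟩ ⟨h2', a', b', c', d', h1', rfl, rfl⟩
  exact ⟨hL.2 _ _ _ _ _ _ _ _ h2 h2', xor a a', xor b b', xor c c', xor d d',
    hL.2 _ _ _ _ _ _ _ _ h1 h1', xor4 _ _ _ _, xor4 _ _ _ _⟩

lemma xcq (i : Fin 3) {L : Bool → Bool → Bool → Bool → Prop} (hL : XC L) : XC (qq i L) := by
  unfold qq
  split_ifs
  · exact xc0 hL
  · exact xc1 hL
  · exact xc2 hL

/-- the class of the primes whose sign matters -/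
def cl (i : Fin 3) : Fin 3 := if i = 0 then 2 else if i = 1 then 1 else 0

/-- the dimensions of the intersections -/
def tq (i j : Fin 3) (neg : Bool) : ℕ :=
  if j = cl i then (if neg then 1 else if i = 0 then 2 else 0) else if i = 0 then 0 else 2

set_option maxRecDepth 100000 in
lemma fin_q0 (j : Fin 3) (neg : Bool) : Nat.card {x : XX // LX (q0 (LR j neg)) x} = 4 ∧
    Nat.card {x : XX // LX (q0 (LR j neg)) x ∧ LX LU x} = 2 ^ tq 0 j neg := by
  unfold LX q0 LR LU
  fin_cases j <;> cases neg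
  all_goals exact ⟨key_card _ _ (by decide), key_card _ _ (by decide)⟩

set_option maxRecDepth 100000 in
lemma fin_q1 (j : Fin 3) (neg : Bool) : Nat.card {x : XX // LX (q1 (LR j neg)) x} = 4 ∧
    Nat.card {x : XX // LX (q1 (LR j neg)) x ∧ LX LU x} = 2 ^ tq 1 j neg := by
  unfold LX q1 LR LU
  fin_cases j <;> cases neg
  all_goals exact ⟨key_card _ _ (by decide), key_card _ _ (by decide)⟩

set_option maxRecDepth 100000 in
lemma fin_q2 (j : Fin 3) (neg : Bool) : Nat.card {x : XX // LX (q2 (LR j neg)) x} = 4 ∧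
    Nat.card {x : XX // LX (q2 (LR j neg)) x ∧ LX LU x} = 2 ^ tq 2 j neg := by
  unfold LX q2 LR LU
  fin_cases j <;> cases neg
  all_goals exact ⟨key_card _ _ (by decide), key_card _ _ (by decide)⟩

end Pool.Agent.Q52.ISO
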