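import Pool.Agent.Y535.RZ.SURJ
import Pool.Agent.Y105.RZ.Goods

/-!
# Selmer groups of 2-isogenies: the local data of the curve and of its twist by 17
-/

set_option autoImplicit false

namespace Pool.Agent.Q52.ISO

open Finset Pool.Agent.W262.RK Pool.Agent.W307.RT Pool.Agent.W307.RS Pool.Agent.W307.SE
  Pool.Agent.W307.FK Pool.Agent.W214.RK2 Pool.Agent.Y667.RP Pool.Agent.Y667.RZ
  Pool.Agent.Y535.RZ

/-- the local data of the curve `y² = x (x - a) (x - b)` -/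
structure LD (a b : ℤ) (M : ℕ) (L : ℕ → Bool → Bool → Bool → Bool → Prop) : Prop where
  apos : 0 < a
  bpos : 0 < b
  ab : a ≠ b
  odd : Odd M
  big : ∀ p : ℕ, p.Prime → p ∣ M → 7 ≤ p
  nec : ∀ (p : ℕ) [Fact p.Prime], p ∣ M → ∀ d1 d2 : ℤ, Squarefree d1 → Squarefree d2 →
    Loc ℚ_[p] a b d1 d2 → L p (dv p d1) (dv p d2) (sgn p d1) (sgn p d2)
  suf : ∀ (p : ℕ) [Fact p.Prime], p ∣ M → ∀ d1 d2 : ℤ, Squarefree d1 → Squarefree d2 →
    L p (dv p d1) (dv p d2) (sgn p d1) (sgn p d2) → Loc ℚ_[p] a b d1 d2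
  good : ∀ (p : ℕ) [Fact p.Prime], p ≠ 2 → ¬ p ∣ M → ∀ d1 d2 : ℤ, ¬ (p : ℤ) ∣ d1 →
    ¬ (p : ℤ) ∣ d2 → Loc ℚ_[p] a b d1 d2
  two : ∀ [Fact (Nat.Prime 2)] (d1 d2 : ℤ), d1 % 8 = 1 → Squarefree d2 → Loc ℚ_[2] a b d1 d2
  two' : ∀ [Fact (Nat.Prime 2)] (x y : ℚ_[2]), y ≠ 0 → y ^ 2 = x * (x - a) * (x - b) →
    IsSquare x
  re : ∀ d1 d2 : ℤ, 0 < d1 → d2 ≠ 0 → Loc ℝ a b d1 d2
  sel : Sel a b = VG M L
  c0 : ∀ q : ℕ, q.Prime → q ∣ M → ∀ v w h g, L q v w h g → v = true → (q : ℤ) ∣ a * b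
  c1 : ∀ q : ℕ, q.Prime → q ∣ M → ∀ v w h g, L q v w h g → w = true → (q : ℤ) ∣ a * (a - b)
  c2 : ∀ q : ℕ, q.Prime → q ∣ M → ∀ v w h g, L q v w h g → xor v w = true →
    (q : ℤ) ∣ b * (b - a)
  pr : ∀ q : ℕ, q.Prime → (q : ℤ) ∣ a * b * (a - b) → q ∣ 2 * M
  ev : (2 : ℤ) ∣ a - b

lemma loclr {a b : ℤ} (c : Fin 3) (κ : ℤ) (p : ℕ) [Fact p.Prime] (hp2 : p ≠ 2)
    (hκ : ¬ (p : ℤ) ∣ κ) (hL : LocH c.castSucc (fun _ => κ) false p a b) {d1 d2 : ℤ}
    (h1 : Squarefree d1) (h2 : Squarefree d2) (hd : Loc ℚ_[p] a b d1 d2) :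
    LR c (sg0 p κ) (dv p d1) (dv p d2) (sgn p d1) (sgn p d2) := by
  obtain ⟨x, y, hy, hxy, s1, s2⟩ := hd
  have h := loclp_of Pool.Agent.W407.SE.ratp c.castSucc (fun _ => κ) false p a b hp2
    (fun _ => hκ) hL x y hy hxy d1 d2 h1 h2 s1 s2
  unfold LL at h
  unfold LR
  fin_cases c
  · simpa using h
  · simpa using h
  · simpa using h

/-- the necessary conditions at the primes of `∏ s` -/
lemma nec_lf {s : Fin 3 → ℕ} {D : ℕ} (h : Dat s D) {p : ℕ} [hp : Fact p.Prime] (E : Finset ℕ)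
    (hE0 : p ∣ s 0 → (p ∈ E ↔ jacobiSym (-((D : ℤ) * s 1)) p = -1))
    (hE1 : p ∣ s 1 → (p ∈ E ↔ jacobiSym (-((D : ℤ) * s 0)) p = -1))
    (hE2 : p ∣ s 2 → (p ∈ E ↔ jacobiSym ((D : ℤ) * s 0) p = -1)) {d1 d2 : ℤ}
    (q1 : Squarefree d1) (q2 : Squarefree d2)
    (hd : Loc ℚ_[p] ((D : ℤ) * s 0) ((D : ℤ) * s 1) d1 d2) :
    LF s E p (dv p d1) (dv p d2) (sgn p d1) (sgn p d2) := by
  have hpp := hp.out
  intro j hj
  have hj3 : j = 0 ∨ j = 1 ∨ j = 2 := by fin_cases j <;> simp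
  rcases hj3 with rfl | rfl | rfl
  · have hdec : decide (p ∈ E) = sg0 p (-((D : ℤ) * s 1)) := by
      unfold sg0
      rw [decide_eq_decide]
      exact hE0 hj
    rw [hdec]
    have hD := h.hD hpp hj
    have h1 : ¬ p ∣ s 1 := cop_nd hpp h.cop01 hj
    have h2 : ¬ (p : ℤ) ∣ -((D : ℤ) * s 1) := by rw [dvd_neg, dvd_D hpp hD]; exact h1
    refine loclr 0 _ p (h.ne2 hj) h2 ?_ q1 q2 hd
    unfold LocH
    rw [if_pos (by rfl)]
    exact ⟨(dvd_D hpp hD).2 hj, nsq_D hpp hD (h.sqj 0), fun h => h1 ((dvd_D hpp hD).1 h),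
      jac_self hpp h2⟩
  · have hdec : decide (p ∈ E) = sg0 p (-((D : ℤ) * s 0)) := by
      unfold sg0
      rw [decide_eq_decide]
      exact hE1 hj
    rw [hdec]
    have hD := h.hD hpp hj
    have h1 : ¬ p ∣ s 0 := cop_nd hpp h.cop01.symm hj
    have h2 : ¬ (p : ℤ) ∣ -((D : ℤ) * s 0) := by rw [dvd_neg, dvd_D hpp hD]; exact h1
    refine loclr 1 _ p (h.ne2 hj) h2 ?_ q1 q2 hd
    unfold LocH
    rw [if_neg (by decide), if_pos (by rfl)]
    exact ⟨(dvd_D hpp hD).2 hj, nsq_D hpp hD (h.sqj 1), fun h => h1 ((dvd_D hpp hD).1 h),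
      jac_self hpp h2⟩
  · have hdec : decide (p ∈ E) = sg0 p ((D : ℤ) * s 0) := by
      unfold sg0
      rw [decide_eq_decide]
      exact hE2 hj
    rw [hdec]
    have hD := h.hD hpp hj
    have hp2 := h.ne2 hj
    have h1 : ¬ p ∣ s 0 := fun h' => cop_nd hpp h.cop012.symm hj (h'.mul_right _)
    have h2 : ¬ (p : ℤ) ∣ (D : ℤ) * s 0 := by rw [dvd_D hpp hD]; exact h1
    refine loclr 2 _ p hp2 h2 ?_ q1 q2 hd
    unfold LocH
    rw [if_neg (by decide), if_neg (by decide), if_pos (by rfl)]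
    refine ⟨(h.dvdC hpp hp2 hD).2 hj, ?_, h2, jac_self hpp h2⟩
    intro h'
    rw [h.dif'] at h'
    have h3 : p ^ 2 ∣ 32 * (D * s 2) := by exact_mod_cast h'
    have h4 : (p ^ 2).Coprime 32 := by
      have : p.Coprime 2 := (Nat.coprime_primes hpp Nat.prime_two).2 hp2
      have h5 : (p ^ 2).Coprime (2 ^ 5) := Nat.Coprime.pow 2 5 this
      exact h5
    have h5 : (p ^ 2).Coprime D :=
      Nat.Coprime.pow_left 2 ((Nat.Prime.coprime_iff_not_dvd hpp).2 hD)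
    exact nsq hpp (h.sqj 2) (h5.dvd_of_dvd_mul_left (h4.dvd_of_dvd_mul_left h3))

/-- the necessary condition at 17 for the twist -/
lemma nec_17 [Fact (Nat.Prime 17)] {x0 y0 : ℕ} (hx : x0 % 17 = 1) (hy : y0 % 17 = 15)
    {d1 d2 : ℤ} (q1 : Squarefree d1) (q2 : Squarefree d2)
    (hd : Loc ℚ_[17] (((17 : ℕ) : ℤ) * x0) (((17 : ℕ) : ℤ) * y0) d1 d2) :
    sgn 17 d1 = false ∧ sgn 17 d2 = dv 17 d1 := by
  obtain ⟨x, y, hy', hxy, s1, s2⟩ := hd
  have hLL := loclp_of Pool.Agent.W407.SE.ratp 3 ![1, 1, 3] false 17 _ _ (by norm_num)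
    ?_ ?_ x y hy' hxy d1 d2 q1 q2 s1 s2
  · unfold LL at hLL
    rw [if_neg (by decide), if_neg (by decide), if_neg (by decide)] at hLL
    exact ll17 _ _ _ _ hLL
  · intro k
    fin_cases k <;> norm_num
  · unfold LocH
    rw [if_neg (by decide), if_neg (by decide), if_neg (by decide)]
    exact loch17 _ _ hx hy (by omega) (by omega)

/-- the local data from the data of the twist by `D` -/
lemma ld_of {s : Fin 3 → ℕ} {D : ℕ} (h : Dat s D) (hDo : D % 8 = 1) (h0 : s 0 % 8 = 1)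
    (h1 : s 1 % 8 = 1) (hbig : ∀ p : ℕ, p.Prime → p ∣ ∏ j, s j → 17 < p) (E : Finset ℕ)
    (L : ℕ → Bool → Bool → Bool → Bool → Prop)
    (hL : ∀ p : ℕ, p.Prime → p ∣ ∏ j, s j → L p = LF s E p)
    (hE : ∀ p : ℕ, p.Prime → p ∣ ∏ j, s j →
      (p ∣ s 0 → (p ∈ E ↔ jacobiSym (-((D : ℤ) * s 1)) p = -1)) ∧
      (p ∣ s 1 → (p ∈ E ↔ jacobiSym (-((D : ℤ) * s 0)) p = -1)) ∧
      (p ∣ s 2 → (p ∈ E ↔ jacobiSym ((D : ℤ) * s 0) p = -1)))
    (hDb : ∀ p : ℕ, p.Prime → p ∣ D → 7 ≤ p)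
    (hDn : ∀ (p : ℕ) [Fact p.Prime], p ∣ D → ∀ d1 d2 : ℤ, Squarefree d1 → Squarefree d2 →
      Loc ℚ_[p] ((D : ℤ) * s 0) ((D : ℤ) * s 1) d1 d2 →
        L p (dv p d1) (dv p d2) (sgn p d1) (sgn p d2))
    (hDs : ∀ (p : ℕ) [Fact p.Prime], p ∣ D → ∀ d1 d2 : ℤ, Squarefree d1 → Squarefree d2 →
      L p (dv p d1) (dv p d2) (sgn p d1) (sgn p d2) →
        Loc ℚ_[p] ((D : ℤ) * s 0) ((D : ℤ) * s 1) d1 d2)
    (hsel : Sel ((D : ℤ) * s 0) ((D : ℤ) * s 1) = VG (D * ∏ j, s j) L) :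
    LD ((D : ℤ) * s 0) ((D : ℤ) * s 1) (D * ∏ j, s j) L := by
  have hD0 : (0 : ℤ) < D := by exact_mod_cast h.D0
  have hA : (0 : ℤ) < (D : ℤ) * s 0 := by
    have := h.pos 0
    positivity
  have hB : (0 : ℤ) < (D : ℤ) * s 1 := by
    have := h.pos 1
    positivity
  have hC0 : (0 : ℤ) < (D : ℤ) * s 2 := by
    have := h.pos 2
    positivity
  have hBA : (D : ℤ) * s 1 < (D : ℤ) * s 0 := by
    have := h.dif'
    linarith
  have m8 : ∀ x : ℕ, x % 8 = 1 → ((D : ℤ) * (x : ℤ)) % 8 = 1 := by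
    intro x hx
    have : (D * x) % 8 = 1 := by rw [Nat.mul_mod, hDo, hx]
    have h2 : ((D * x : ℕ) : ℤ) % 8 = 1 := by omega
    rw [← h2]
    push_cast
    rfl
  have hDodd : Odd D := by rw [Nat.odd_iff]; omega
  have hMo : Odd (D * ∏ j, s j) := hDodd.mul h.odd
  have h32 : (32 : ℤ) ∣ (D : ℤ) * s 0 - (D : ℤ) * s 1 := by
    rw [h.dif']
    exact dvd_mul_right _ _
  have hcase : ∀ q : ℕ, q.Prime → q ∣ D * ∏ j, s j →
      q ∣ D ∨ q ∣ s 0 ∨ q ∣ s 1 ∨ q ∣ s 2 := by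
    intro q hq hqM
    rcases hq.dvd_mul.1 hqM with h' | h'
    · exact Or.inl h'
    · rw [h.P3] at h'
      rcases hq.dvd_mul.1 h' with h' | h'
      · rcases hq.dvd_mul.1 h' with h' | h'
        · exact Or.inr (Or.inl h')
        · exact Or.inr (Or.inr (Or.inl h'))
      · exact Or.inr (Or.inr (Or.inr h'))
  have hDa : ∀ q : ℕ, q ∣ D → (q : ℤ) ∣ (D : ℤ) * s 0 := fun q hq =>
    (Int.natCast_dvd_natCast.2 hq).mul_right _
  have hDb' : ∀ q : ℕ, q ∣ D → (q : ℤ) ∣ (D : ℤ) * s 1 := fun q hq =>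
    (Int.natCast_dvd_natCast.2 hq).mul_right _
  have h0a : ∀ q : ℕ, q ∣ s 0 → (q : ℤ) ∣ (D : ℤ) * s 0 := fun q hq =>
    (Int.natCast_dvd_natCast.2 hq).mul_left _
  have h1b : ∀ q : ℕ, q ∣ s 1 → (q : ℤ) ∣ (D : ℤ) * s 1 := fun q hq =>
    (Int.natCast_dvd_natCast.2 hq).mul_left _
  have h2c : ∀ q : ℕ, q ∣ s 2 → (q : ℤ) ∣ (D : ℤ) * s 0 - (D : ℤ) * s 1 := fun q hq => by
    rw [h.dif']
    exact ((Int.natCast_dvd_natCast.2 hq).mul_left _).mul_left _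
  have hLj : ∀ (q : ℕ) (j : Fin 3), q.Prime → q ∣ s j → ∀ v w x g, L q v w x g →
      LR j (decide (q ∈ E)) v w x g := by
    intro q j hq hj v w x g hv
    rw [hL q hq (hj.trans (h.sj_dvd j))] at hv
    exact hv j hj
  refine ⟨hA, hB, hBA.ne', hMo, ?_, ?_, ?_, ?_, ?_, ?_, ?_, hsel, ?_, ?_, ?_, ?_, ?_⟩
  · intro p hp hpM
    rcases hp.dvd_mul.1 hpM with h' | h'
    · exact hDb p hp h'
    · have := hbig p hp h'
      omega
  · intro p hp hpM d1 d2 q1 q2 hd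
    rcases hp.out.dvd_mul.1 hpM with h' | h'
    · exact hDn p h' d1 d2 q1 q2 hd
    · rw [hL p hp.out h']
      obtain ⟨e0, e1, e2⟩ := hE p hp.out h'
      exact nec_lf h E e0 e1 e2 q1 q2 hd
  · intro p hp hpM d1 d2 q1 q2 hd
    rcases hp.out.dvd_mul.1 hpM with h' | h'
    · exact hDs p h' d1 d2 q1 q2 hd
    · rw [hL p hp.out h'] at hd
      obtain ⟨e0, e1, e2⟩ := hE p hp.out h'
      exact h.pts (d := (d1, d2)) (by have := hbig p hp.out h'; omega) h' q1 q2 E hd e0 e1 e2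
  · intro p hp hp2 hpM d1 d2 q1 q2
    have hpp := hp.out
    have hqi := Nat.prime_iff_prime_int.1 hpp
    have hD : ¬ p ∣ D := fun h' => hpM (h'.mul_right _)
    have hj : ∀ j, ¬ p ∣ s j := fun j h' => hpM ((h'.trans (h.sj_dvd j)).mul_left _)
    refine Pool.Agent.Y105.RZ.GOODS p _ _ d1 d2 ?_ q1 q2
    intro h'
    rcases hqi.dvd_or_dvd h' with h' | h'
    · rcases hqi.dvd_or_dvd h' with h' | h'
      · rcases hqi.dvd_or_dvd h' with h' | h'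
        · have : p ∣ 2 := by exact_mod_cast h'
          exact hp2 ((Nat.prime_dvd_prime_iff_eq hpp Nat.prime_two).1 this)
        · exact hj 0 ((dvd_D hpp hD).1 h')
      · exact hj 1 ((dvd_D hpp hD).1 h')
    · exact hj 2 ((h.dvdC hpp hp2 hD).1 h')
  · intro _ d1 d2 q1 q2
    have hodd : ((D : ℤ) * (s 2 : ℤ)) % 2 = 1 := by
      have h2 : ¬ 2 ∣ D * s 2 := by
        intro h'
        have h3 : 2 ∣ D * ∏ j, s j := h'.trans (mul_dvd_mul_left D (h.sj_dvd 2))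
        exact (Nat.not_even_iff_odd.2 hMo) (even_iff_two_dvd.2 h3)
      have h3 : (D * s 2) % 2 = 1 := by omega
      have h4 : ((D * s 2 : ℕ) : ℤ) % 2 = 1 := by omega
      rw [← h4]
      push_cast
      rfl
    exact pt_two (m8 _ h0) (m8 _ h1) h.dif' hodd q1 q2
  · intro _ x y hy hxy
    exact two_sq (m8 _ h0) h32 hy hxy
  · intro d1 d2 q1 q2
    exact pt_real hB hBA q1 q2
  · intro q hq hqM v w x g hv hvt
    rcases hcase q hq hqM with h' | h' | h' | h'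
    · exact (hDa q h').mul_right _
    · exact (h0a q h').mul_right _
    · exact (h1b q h').mul_left _
    · have h3 := hLj q 2 hq h' v w x g hv
      unfold LR at h3
      rw [if_neg (by decide), if_neg (by decide), hvt] at h3
      exact absurd h3.1 (by decide)
  · intro q hq hqM v w x g hv hvt
    rcases hcase q hq hqM with h' | h' | h' | h'
    · exact (hDa q h').mul_right _
    · exact (h0a q h').mul_right _
    · have h3 := hLj q 1 hq h' v w x g hv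
      unfold LR at h3
      rw [if_neg (by decide), if_pos rfl, hvt] at h3
      exact absurd h3.1 (by decide)
    · exact (h2c q h').mul_left _
  · intro q hq hqM v w x g hv hvt
    rcases hcase q hq hqM with h' | h' | h' | h'
    · exact (hDb' q h').mul_right _
    · have h3 := hLj q 0 hq h' v w x g hv
      unfold LR at h3
      rw [if_pos rfl] at h3
      rw [h3.1, Bool.xor_self] at hvt
      exact absurd hvt (by decide)
    · exact (h1b q h').mul_right _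
    · have := h2c q h'
      rw [← dvd_neg, neg_sub] at this
      exact this.mul_left _
  · intro q hq hd
    have hqi := Nat.prime_iff_prime_int.1 hq
    have t : ∀ x : ℕ, x ∣ D * ∏ j, s j → ∀ y : ℕ, q ∣ x → q ∣ 2 * (D * ∏ j, s j) :=
      fun x hx _ hqx => (hqx.trans hx).mul_left _
    have tj : ∀ j : Fin 3, (q : ℤ) ∣ (D : ℤ) * s j → q ∣ 2 * (D * ∏ j, s j) := by
      intro j hj
      have hj' : q ∣ D * s j := by exact_mod_cast hj
      exact (hj'.trans (mul_dvd_mul_left D (h.sj_dvd j))).mul_left _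
    rcases hqi.dvd_or_dvd hd with h' | h'
    · rcases hqi.dvd_or_dvd h' with h' | h'
      · exact tj 0 h'
      · exact tj 1 h'
    · rw [h.dif'] at h'
      rcases hqi.dvd_or_dvd h' with h' | h'
      · have h3 : q ∣ 2 ^ 5 := by exact_mod_cast h'
        exact (hq.dvd_of_dvd_pow h3).mul_right _
      · exact tj 2 h'
  · exact (show (2 : ℤ) ∣ 32 by norm_num).trans h32

end Pool.Agent.Q52.ISO
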