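import Pool.Agent.Q52.ISO.Fld
import Pool.Agent.Q52.ISO.Loc
import Pool.Agent.Y667.ISO.Stm

/-!
# Selmer groups of 2-isogenies: identification with the groups given by the local conditions
-/

set_option autoImplicit false

namespace Pool.Agent.Q52.ISO

open Finset Pool.Agent.W262.RK Pool.Agent.W307.RT Pool.Agent.W307.RS Pool.Agent.W307.SE
  Pool.Agent.W307.FK Pool.Agent.W214.RK2 Pool.Agent.Y667.RP Pool.Agent.Y667.RZ
  Pool.Agent.Y535.RZ

open Pool.Agent.TH841.NO (Qu SQ)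

open Pool.Agent.Y667.ISO (GA GB pr0 pr1 pr2 in0 in1 in2)

/-! ### squares in fields -/

section

variable {K : Type} [Field K] [CharZero K] {a b z d d1 d2 : ℤ}

omit [CharZero K] in
lemma ne_of_pt {x y : K} (hy : y ≠ 0) (h : y ^ 2 = x * (x - a) * (x - b)) :
    x ≠ 0 ∧ x - a ≠ 0 ∧ x - b ≠ 0 := by
  have hy2 : y ^ 2 ≠ 0 := pow_ne_zero 2 hy
  rw [h] at hy2
  exact ⟨left_ne_zero_of_mul (left_ne_zero_of_mul hy2),
    right_ne_zero_of_mul (left_ne_zero_of_mul hy2), right_ne_zero_of_mul hy2⟩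

omit [CharZero K] in
/-- the third factor -/
lemma third {x y u v w : K} (hy : y ≠ 0) (h : y ^ 2 = x * u * v) {e1 e2 e3 : K}
    (h1 : IsSquare (x * e1)) (h2 : IsSquare (u * e2)) (h0 : x * e1 ≠ 0) (h0' : u * e2 ≠ 0)
    (h3 : IsSquare (e1 * e2 * e3)) (_ : w = w) : IsSquare (v * e3) := by
  have hk : v * e3 = (y ^ 2 * (e1 * e2 * e3)) / ((x * e1) * (u * e2)) := by
    rw [eq_div_iff (mul_ne_zero h0 h0'), h]
    ring
  rw [hk]
  exact ((IsSquare.sq y).mul h3).div (h1.mul h2)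

omit [CharZero K] in
lemma pi0_of (h : Loc K a b z d) : PI K 0 a b z := by
  obtain ⟨x, y, hy, hxy, s1, -⟩ := h
  refine ⟨x, y, hy, ?_, ?_⟩
  · rw [Int.cast_zero, sub_zero, hxy]
  · rwa [Int.cast_zero, sub_zero]

omit [CharZero K] in
lemma pi1_of (h : Loc K a b d z) : PI K a 0 b z := by
  obtain ⟨x, y, hy, hxy, -, s2⟩ := h
  refine ⟨x, y, hy, ?_, s2⟩
  rw [Int.cast_zero, sub_zero, hxy]
  ring

lemma pi2_of (h : Loc K a b d1 d2) (h1 : d1 ≠ 0) (h2 : d2 ≠ 0)
    (h3 : IsSquare ((d1 : K) * d2 * z)) : PI K b 0 a z := by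
  obtain ⟨x, y, hy, hxy, s1, s2⟩ := h
  obtain ⟨n0, n1, n2⟩ := ne_of_pt hy hxy
  have h1K : (d1 : K) ≠ 0 := by exact_mod_cast h1
  have h2K : (d2 : K) ≠ 0 := by exact_mod_cast h2
  refine ⟨x, y, hy, ?_, ?_⟩
  · rw [Int.cast_zero, sub_zero, hxy]
    ring
  · exact third (w := x) hy hxy s1 s2 (mul_ne_zero n0 h1K) (mul_ne_zero n1 h2K) h3 rfl

omit [CharZero K] in
lemma pd0_iff : PD K 0 a b z ↔ Loc K a b 1 z := by
  constructor
  · rintro ⟨x, y, hy, hxy, s1, s2⟩
    rw [Int.cast_zero, sub_zero] at hxy s1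
    exact ⟨x, y, hy, hxy, by rwa [Int.cast_one, mul_one], s2⟩
  · rintro ⟨x, y, hy, hxy, s1, s2⟩
    rw [Int.cast_one, mul_one] at s1
    exact ⟨x, y, hy, by rwa [Int.cast_zero, sub_zero], by rwa [Int.cast_zero, sub_zero], s2⟩

omit [CharZero K] in
lemma pd1_iff : PD K a 0 b z ↔ Loc K a b z 1 := by
  constructor
  · rintro ⟨x, y, hy, hxy, s1, s2⟩
    rw [Int.cast_zero, sub_zero] at hxy s2
    exact ⟨x, y, hy, by rw [hxy]; ring, s2, by rwa [Int.cast_one, mul_one]⟩
  · rintro ⟨x, y, hy, hxy, s1, s2⟩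
    rw [Int.cast_one, mul_one] at s2
    exact ⟨x, y, hy, by rw [Int.cast_zero, sub_zero, hxy]; ring, s2,
      by rwa [Int.cast_zero, sub_zero]⟩

lemma pd2_iff (hz : z ≠ 0) : PD K b 0 a z ↔ Loc K a b z z := by
  have hzK : (z : K) ≠ 0 := by exact_mod_cast hz
  constructor
  · rintro ⟨x, y, hy, hxy, s1, s2⟩
    rw [Int.cast_zero, sub_zero] at hxy s2
    have hxy' : y ^ 2 = x * (x - a) * (x - b) := by rw [hxy]; ring
    obtain ⟨n0, n1, n2⟩ := ne_of_pt hy hxy'
    refine ⟨x, y, hy, hxy', s2, ?_⟩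
    refine third (w := x) (x := x) (u := x - b) (v := x - a) (e1 := z) (e2 := 1) (e3 := z) hy
      (by rw [hxy]; ring) s2 (by rwa [mul_one]) (mul_ne_zero n0 hzK) (by rwa [mul_one]) ?_ rfl
    exact ⟨z, by ring⟩
  · rintro ⟨x, y, hy, hxy, s1, s2⟩
    obtain ⟨n0, n1, n2⟩ := ne_of_pt hy hxy
    refine ⟨x, y, hy, by rw [Int.cast_zero, sub_zero, hxy]; ring, ?_,
      by rwa [Int.cast_zero, sub_zero]⟩
    have := third (w := x) (x := x) (u := x - a) (v := x - b) (e1 := z) (e2 := z) (e3 := 1) hy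
      hxy s1 s2 (mul_ne_zero n0 hzK) (mul_ne_zero n1 hzK) ⟨z, by ring⟩ rfl
    rwa [mul_one] at this

end

/-! ### integers with prescribed data -/

section

variable {p : ℕ} [hp : Fact p.Prime]

lemma psq_odd (Y : ℤ) (hY : ¬ (p : ℤ) ∣ Y) : ¬ IsSquare ((p : ℚ_[p]) * (Y : ℚ_[p])) := by
  intro h
  have hp0 : (p : ℚ_[p]) ≠ 0 := by exact_mod_cast hp.out.ne_zero
  have hY0 : (Y : ℚ_[p]) ≠ 0 := by
    intro h0
    apply hY
    have : Y = 0 := by exact_mod_cast h0
    rw [this]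
    exact dvd_zero _
  have h1 := Pool.Agent.W405.SE.even_val hp0 hY0 h
  rw [Padic.valuation_intCast, padicValInt.eq_zero_of_not_dvd hY] at h1
  have h2 : ((p : ℕ) : ℚ_[p]).valuation = 1 := by
    rw [Padic.valuation_natCast, padicValNat_self]
    rfl
  rw [h2] at h1
  exact absurd h1 (by decide)

lemma psq_cancel {r Y : ℚ_[p]} (hr : r ≠ 0) (h : IsSquare (r ^ 2 * Y)) : IsSquare Y := by
  obtain ⟨w, hw⟩ := h
  refine ⟨w / r, ?_⟩
  rw [div_mul_div_comm, eq_div_iff (mul_ne_zero hr hr), ← hw]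
  ring

/-- the square class in `ℚ_p` is additive in the local data -/
lemma pkey (a b c : ℤ) (ha : Squarefree a) (hb : Squarefree b)
    (hc : Squarefree c) (h : IsSquare ((a : ℚ_[p]) * b * c)) :
    dv p c = xor (dv p a) (dv p b) ∧ sgn p c = xor (sgn p a) (sgn p b) := by
  obtain ⟨a', ha1, ha2, ha3⟩ := dec p hp.out a ha
  obtain ⟨b', hb1, hb2, hb3⟩ := dec p hp.out b hb
  obtain ⟨c', hc1, hc2, hc3⟩ := dec p hp.out c hc
  have hpi := Nat.prime_iff_prime_int.mp hp.out
  have hp0 : (p : ℚ_[p]) ≠ 0 := by exact_mod_cast hp.out.ne_zero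
  have hY : ¬ (p : ℤ) ∣ a' * b' * c' := by
    intro h
    rcases hpi.dvd_or_dvd h with h | h
    · rcases hpi.dvd_or_dvd h with h | h
      · exact ha2 h
      · exact hb2 h
    · exact hc2 h
  have main : dv p c = xor (dv p a) (dv p b) ∧ IsSquare (((a' * b' * c' : ℤ) : ℚ_[p])) := by
    rw [ha1, hb1, hc1] at h
    generalize dv p a = u at h ⊢
    generalize dv p b = v at h ⊢
    generalize dv p c = w at h ⊢
    cases u <;> cases v <;> cases w <;>
      simp only [Bool.false_eq_true, if_false, if_true, one_mul, Bool.xor_false, Bool.xor_true,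
        Bool.not_false, Bool.not_true, true_and, false_and, reduceCtorEq] at h ⊢
    · push_cast at h ⊢
      exact h
    · refine psq_odd _ hY ?_
      push_cast at h ⊢
      convert h using 1; ring
    · refine psq_odd _ hY ?_
      push_cast at h ⊢
      convert h using 1; ring
    · refine psq_cancel hp0 ?_
      push_cast at h ⊢
      convert h using 1; ring
    · refine psq_odd _ hY ?_
      push_cast at h ⊢
      convert h using 1; ring
    · refine psq_cancel hp0 ?_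
      push_cast at h ⊢
      convert h using 1; ring
    · refine psq_cancel hp0 ?_
      push_cast at h ⊢
      convert h using 1; ring
    · refine psq_odd _ hY (psq_cancel hp0 ?_)
      push_cast at h ⊢
      convert h using 1; ring
  refine ⟨main.1, ?_⟩
  have hJ := Pool.Agent.W407.SE.jac _ hY main.2
  rw [jacobiSym.mul_left, jacobiSym.mul_left] at hJ
  rw [ha3, hb3, hc3]
  unfold sg0
  rcases jac_pm p hp.out a' ha2 with h1 | h1 <;> rcases jac_pm p hp.out b' hb2 with h2 | h2 <;>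
    rcases jac_pm p hp.out c' hc2 with h3 | h3 <;> rw [h1, h2, h3] at hJ ⊢ <;> simp at hJ ⊢

/-- squarefree representatives of the square classes -/
lemma prep (hp2 : p ≠ 2) (u : ℚ_[p]) (hu : u ≠ 0) : ∃ e : ℤ, Squarefree e ∧ IsSquare (u * e) := by
  obtain ⟨x0, hx0⟩ := Padic.rat_dense p u (ε := ‖u‖) (norm_pos_iff.2 hu)
  obtain ⟨h1, h2⟩ := Pool.Agent.W407.SE.near hp2 _ _ hx0
  have h3 : x0 ≠ 0 := by
    intro h
    rw [h] at h2
    simp at h2
  obtain ⟨e, he, hsq⟩ := exists_rep x0 h3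
  refine ⟨e, he, ?_⟩
  have h4 : IsSquare ((x0 : ℚ_[p]) * (e : ℚ_[p])) := by
    have := hsq.map (Rat.castHom ℚ_[p])
    simpa using this
  refine sq_tr h2 ?_ h4
  rw [mul_comm]
  exact h1

/-- a squarefree integer with prescribed data -/
lemma exd (h7 : 7 ≤ p) (v h : Bool) : ∃ d : ℤ, Squarefree d ∧ dv p d = v ∧ sgn p d = h := by
  have hpp := hp.out
  have h1p : ¬ (p : ℤ) ∣ 1 := by
    intro h'
    have h'' : p ∣ 1 := by exact_mod_cast h'
    exact hpp.one_lt.ne' (Nat.dvd_one.1 h'')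
  obtain ⟨u, hu, -⟩ := exU h7 h1p (e1 := if h then -1 else 1) (e2 := 1)
    (by cases h <;> simp) (Or.inl rfl)
  have hu0 : ¬ (p : ℤ) ∣ u := by
    apply jac_nd
    rw [hu]
    cases h <;> simp
  have hun : u ≠ 0 := by
    rintro rfl
    exact hu0 (dvd_zero _)
  obtain ⟨e, he, r, hr⟩ := exists_rep (u : ℚ) (by exact_mod_cast hun)
  -- `u e` is the square of an integer
  have hr' : IsSquare (u * e) := by
    have h3 : IsSquare (((u * e : ℤ)) : ℚ) := ⟨r, by push_cast; exact hr⟩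
    exact Rat.isSquare_intCast_iff.1 h3
  obtain ⟨m, hm⟩ := hr'
  have hpi := Nat.prime_iff_prime_int.1 hpp
  have hpe : ¬ (p : ℤ) ∣ e := by
    intro h4
    have h5 : (p : ℤ) ∣ m * m := by rw [← hm]; exact h4.mul_left _
    have h6 : (p : ℤ) ∣ m := by
      rcases hpi.dvd_or_dvd h5 with h' | h'
      · exact h'
      · exact h'
    have h7' : (p : ℤ) * p ∣ u * e := by rw [hm]; exact mul_dvd_mul h6 h6
    have h8 : IsCoprime ((p : ℤ) * p) u := by
      have : IsCoprime (p : ℤ) u := (hpi.coprime_iff_not_dvd).2 hu0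
      exact this.mul_left this
    have h9 := h8.dvd_of_dvd_mul_left h7'
    exact hpi.not_unit (he _ h9)
  have hJe : jacobiSym e p = if h then -1 else 1 := by
    have h10 : jacobiSym (m * m) p = 1 := by
      apply jac_self hpp
      intro h11
      have h12 : (p : ℤ) ∣ u * e := by rw [hm]; exact h11.mul_left _
      rcases hpi.dvd_or_dvd h12 with h' | h'
      · exact hu0 h'
      · exact hpe h'
    rw [← hm, jacobiSym.mul_left, hu] at h10
    cases h
    · simpa using h10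
    · simp only [if_true] at h10 ⊢
      linarith
  have hsg : sg0 p e = h := by
    unfold sg0
    rw [hJe]
    cases h <;> simp
  cases v
  · refine ⟨e, he, ?_, ?_⟩
    · unfold dv
      rw [decide_eq_false_iff_not]
      exact hpe
    · rw [sgn_ndvd hpp hpe, hsg]
  · have hpe' : Squarefree ((p : ℤ) * e) := by
      have h13 : IsCoprime (p : ℤ) e := (hpi.coprime_iff_not_dvd).2 hpe
      exact (squarefree_mul_iff.2 ⟨h13.isRelPrime, hpi.squarefree, he⟩)
    refine ⟨p * e, hpe', ?_, ?_⟩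
    · unfold dv
      rw [decide_eq_true_iff]
      exact dvd_mul_right _ _
    · unfold sgn
      have h14 : (Int.gcd ((p : ℤ) * e) p : ℤ) = p := by
        rw [Int.gcd_comm]
        have : Int.gcd (p : ℤ) ((p : ℤ) * e) = p := by
          rw [Int.gcd_eq_natAbs_left (dvd_mul_right _ _)]
          simp
        exact_mod_cast congrArg (Nat.cast : ℕ → ℤ) this
      have hp0 : (p : ℤ) ≠ 0 := by exact_mod_cast hpp.ne_zero
      rw [h14, Int.mul_ediv_cancel_left _ hp0, hsg]

end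

end Pool.Agent.Q52.ISO
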