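import Pool.Agent.Q52.ISO.Idn

/-!
# Selmer groups of 2-isogenies: identification, the six groups
-/

set_option autoImplicit false

namespace Pool.Agent.Q52.ISO

open Finset Pool.Agent.W262.RK Pool.Agent.W307.RT Pool.Agent.W307.RS Pool.Agent.W307.SE
  Pool.Agent.W307.FK Pool.Agent.W214.RK2 Pool.Agent.Y667.RP Pool.Agent.Y667.RZ
  Pool.Agent.Y535.RZ

open Pool.Agent.TH841.NO (Qu SQ)

open Pool.Agent.Y667.ISO (GA GB pr0 pr1 pr2 in0 in1 in2)

lemma dv_one2 {p : ℕ} (hp : p.Prime) : dv p 1 = false := by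
  unfold dv
  rw [decide_eq_false_iff_not]
  intro h
  have h' : p ∣ 1 := Int.natCast_dvd_natCast.1 (by simpa using h)
  exact hp.one_lt.ne' (Nat.dvd_one.1 h')

lemma sgn_one2 (p : ℕ) : sgn p 1 = false := by
  unfold sgn sg0
  simp

lemma nd_one {p : ℕ} (hp : p.Prime) : ¬ (p : ℤ) ∣ 1 := by
  intro h
  have h' : p ∣ 1 := Int.natCast_dvd_natCast.1 (by simpa using h)
  exact hp.one_lt.ne' (Nat.dvd_one.1 h')

lemma dvd_of {z n : ℤ} (hz : Squarefree z) (h : ∀ q : ℕ, q.Prime → (q : ℤ) ∣ z → (q : ℤ) ∣ n) :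
    z ∣ n := by
  rw [← Int.natAbs_dvd_natAbs]
  exact natAbs_dvd hz fun q hq hd => Int.natCast_dvd.1 (h q hq hd)

lemma re_pos {a b z : ℤ} (ha : 0 < a) (hb : 0 < b) (hz : z ≠ 0) (h : PI ℝ 0 a b z) : 0 < z := by
  obtain ⟨x, y, hy, hxy, r, hr⟩ := h
  rw [Int.cast_zero, sub_zero] at hxy hr
  have hx : 0 < x := by
    by_contra hcon
    push Not at hcon
    have hy2 : 0 < y ^ 2 := by positivity
    rw [hxy] at hy2
    have ha' : (0 : ℝ) < a := by exact_mod_cast ha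
    have hb' : (0 : ℝ) < b := by exact_mod_cast hb
    have h3 : 0 ≤ (x - a) * (x - b) := mul_nonneg_of_nonpos_of_nonpos (by linarith) (by linarith)
    have h4 : x * ((x - a) * (x - b)) ≤ 0 := mul_nonpos_of_nonpos_of_nonneg hcon h3
    linarith [h4, hy2, mul_assoc x (x - a) (x - b)]
  have h0 : 0 ≤ x * (z : ℝ) := by rw [hr]; exact mul_self_nonneg r
  have h3 : (0 : ℝ) ≤ z := by
    by_contra hcon
    push Not at hcon
    linarith [mul_neg_of_pos_of_neg hx hcon]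
  have h4 : (0 : ℤ) ≤ z := by exact_mod_cast h3
  exact lt_of_le_of_ne h4 hz.symm

section

variable {a b : ℤ} {M : ℕ} {L : ℕ → Bool → Bool → Bool → Bool → Prop} (h : LD a b M L)
include h

lemma LD.mod8 {z : ℤ} (hz : Squarefree z) [Fact (Nat.Prime 2)] (hP : PI ℚ_[2] 0 a b z) :
    z % 8 = 1 := by
  obtain ⟨x, y, hy, hxy, hs1⟩ := hP
  rw [Int.cast_zero, sub_zero] at hxy hs1
  have hx := h.two' x y hy hxy
  obtain ⟨hx0, -, -⟩ := ne_of_pt hy hxy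
  have hd : IsSquare ((z : ℤ) : ℚ_[2]) := by
    have h5 : ((z : ℤ) : ℚ_[2]) = x * z / x := by
      field_simp
    rw [h5]
    exact hs1.div hx
  refine mod_of_sq ?_ hd
  have hd0 : ((z : ℤ) : ℚ_[2]) ≠ 0 := by exact_mod_cast hz.ne_zero
  have := Pool.Agent.W405.SE.not_dvd (p := 2) hz (by
    have h6 := Pool.Agent.W405.SE.even_val (p := 2) (a := ((z : ℤ) : ℚ_[2])) (b := 1) hd0
      one_ne_zero (by rw [mul_one]; exact hd)
    simpa using h6)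
  exact_mod_cast this

lemma LD.n0 {p : ℕ} [hp : Fact p.Prime] (hpM : p ∣ M) {z : ℤ} (hz : Squarefree z)
    (hP : PI ℚ_[p] 0 a b z) : pr0 L p (dv p z) (sgn p z) := by
  obtain ⟨x, y, hy, hxy, s1⟩ := hP
  rw [Int.cast_zero, sub_zero] at hxy s1
  obtain ⟨n0, n1, n2⟩ := ne_of_pt hy hxy
  have hp2 : p ≠ 2 := by have := h.big p hp.out hpM; omega
  obtain ⟨e2, he2, s2⟩ := prep hp2 (x - a) n1
  exact ⟨dv p e2, sgn p e2, h.nec p hpM z e2 hz he2 ⟨x, y, hy, hxy, s1, s2⟩⟩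

lemma LD.n1 {p : ℕ} [hp : Fact p.Prime] (hpM : p ∣ M) {z : ℤ} (hz : Squarefree z)
    (hP : PI ℚ_[p] a 0 b z) : pr1 L p (dv p z) (sgn p z) := by
  obtain ⟨x, y, hy, hxy, s1⟩ := hP
  rw [Int.cast_zero, sub_zero] at hxy
  have hxy' : y ^ 2 = x * (x - a) * (x - b) := by rw [hxy]; ring
  obtain ⟨n0, n1, n2⟩ := ne_of_pt hy hxy'
  have hp2 : p ≠ 2 := by have := h.big p hp.out hpM; omega
  obtain ⟨e1, he1, s2⟩ := prep hp2 x n0
  exact ⟨dv p e1, sgn p e1, h.nec p hpM e1 z he1 hz ⟨x, y, hy, hxy', s2, s1⟩⟩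

lemma LD.n2 {p : ℕ} [hp : Fact p.Prime] (hpM : p ∣ M) {z : ℤ} (hz : Squarefree z)
    (hP : PI ℚ_[p] b 0 a z) : pr2 L p (dv p z) (sgn p z) := by
  obtain ⟨x, y, hy, hxy, s3⟩ := hP
  rw [Int.cast_zero, sub_zero] at hxy
  have hxy' : y ^ 2 = x * (x - a) * (x - b) := by rw [hxy]; ring
  obtain ⟨n0, n1, n2⟩ := ne_of_pt hy hxy'
  have hp2 : p ≠ 2 := by have := h.big p hp.out hpM; omega
  obtain ⟨e1, he1, s1⟩ := prep hp2 x n0
  obtain ⟨e2, he2, s2⟩ := prep hp2 (x - a) n1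
  have hsq : IsSquare ((e1 : ℚ_[p]) * e2 * z) := by
    have hk : (e1 : ℚ_[p]) * e2 * z = ((x * e1) * ((x - a) * e2) * ((x - b) * z)) / y ^ 2 := by
      rw [eq_div_iff (pow_ne_zero 2 hy), hxy']
      ring
    rw [hk]
    exact ((s1.mul s2).mul s3).div (IsSquare.sq y)
  obtain ⟨k1, k2⟩ := pkey e1 e2 z he1 he2 hz hsq
  exact ⟨dv p e1, dv p e2, sgn p e1, sgn p e2, h.nec p hpM e1 e2 he1 he2
    ⟨x, y, hy, hxy', s1, s2⟩, k1, k2⟩

lemma LD.M0 : M ≠ 0 := by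
  have := h.odd
  rintro rfl
  exact absurd this (by decide)

lemma LD.mem {p : ℕ} (hp : p.Prime) (hpM : p ∣ M) : p ∈ M.primeFactors :=
  Nat.mem_primeFactors.2 ⟨hp, hpM, h.M0⟩

lemma LD.ndz {p : ℕ} (hp : p.Prime) (hp2 : p ≠ 2) (hpM : ¬ p ∣ M) {z : ℤ}
    (hpr : ∀ q : ℕ, q.Prime → (q : ℤ) ∣ z → q ∣ 2 * M) : ¬ (p : ℤ) ∣ z := by
  intro hd
  rcases hp.dvd_mul.1 (hpr p hp hd) with h' | h'
  · exact hp2 ((Nat.prime_dvd_prime_iff_eq hp Nat.prime_two).1 h')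
  · exact hpM h'

lemma LD.s0 {z : ℤ} (hz : z ∈ GB M (pr0 L)) : PI ℝ 0 a b z ∧
    ∀ (p : ℕ) [Fact p.Prime], PI ℚ_[p] 0 a b z := by
  obtain ⟨⟨hz, hpr, hL⟩, hz0, hz8⟩ := hz
  refine ⟨pi0_of (h.re z 1 hz0 one_ne_zero), fun p hp => ?_⟩
  by_cases hp2 : p = 2
  · subst hp2
    exact pi0_of (h.two z 1 hz8 squarefree_one)
  by_cases hpM : p ∣ M
  · obtain ⟨w, g, hw⟩ := hL p (h.mem hp.out hpM)
    obtain ⟨e, he, e1, e2⟩ := exd (h.big p hp.out hpM) w g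
    rw [← e1, ← e2] at hw
    exact pi0_of (h.suf p hpM z e hz he hw)
  · exact pi0_of (h.good p hp2 hpM z 1 (h.ndz hp.out hp2 hpM hpr) (nd_one hp.out))

lemma LD.s1 {z : ℤ} (hz : z ∈ GA M (pr1 L)) : PI ℝ a 0 b z ∧
    ∀ (p : ℕ) [Fact p.Prime], PI ℚ_[p] a 0 b z := by
  obtain ⟨hz, hpr, hL⟩ := hz
  refine ⟨pi1_of (h.re 1 z one_pos hz.ne_zero), fun p hp => ?_⟩
  by_cases hp2 : p = 2
  · subst hp2
    exact pi1_of (h.two 1 z (by norm_num) hz)
  by_cases hpM : p ∣ M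
  · obtain ⟨v, x, hv⟩ := hL p (h.mem hp.out hpM)
    obtain ⟨e, he, e1, e2⟩ := exd (h.big p hp.out hpM) v x
    rw [← e1, ← e2] at hv
    exact pi1_of (h.suf p hpM e z he hz hv)
  · exact pi1_of (h.good p hp2 hpM 1 z (nd_one hp.out) (h.ndz hp.out hp2 hpM hpr))

lemma LD.s2 {z : ℤ} (hz : z ∈ GA M (pr2 L)) : PI ℝ b 0 a z ∧
    ∀ (p : ℕ) [Fact p.Prime], PI ℚ_[p] b 0 a z := by
  obtain ⟨hz, hpr, hL⟩ := hz
  have hz0 := hz.ne_zero
  refine ⟨pi2_of (h.re 1 z one_pos hz0) one_ne_zero hz0 ⟨z, by push_cast; ring⟩,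
    fun p hp => ?_⟩
  by_cases hp2 : p = 2
  · subst hp2
    exact pi2_of (h.two 1 z (by norm_num) hz) one_ne_zero hz0 ⟨z, by push_cast; ring⟩
  by_cases hpM : p ∣ M
  · obtain ⟨v, w, x, g, hv, k1, k2⟩ := hL p (h.mem hp.out hpM)
    obtain ⟨e, he, e1, e2⟩ := exd (h.big p hp.out hpM) v x
    obtain ⟨t1, t2⟩ := sp_dv he hz p hp.out
    have t3 : dv p (sp e z) = w := by
      rw [t1, e1, k1, ← Bool.xor_assoc, Bool.xor_self, Bool.false_xor]
    have t4 : sgn p (sp e z) = g := by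
      rw [t2, e2, k2, ← Bool.xor_assoc, Bool.xor_self, Bool.false_xor]
    rw [← e1, ← e2, ← t3, ← t4] at hv
    have hsf := sp_sqf he hz
    refine pi2_of (h.suf p hpM e (sp e z) he hsf hv) he.ne_zero hsf.ne_zero ?_
    obtain ⟨r, hr⟩ := sp_sq (b := z) he
    refine ⟨(r : ℚ_[p]), ?_⟩
    have hr' : e * sp e z * z = r * r := by rw [← hr]; ring
    exact_mod_cast congrArg (Int.cast : ℤ → ℚ_[p]) hr'
  · exact pi2_of (h.good p hp2 hpM 1 z (nd_one hp.out) (h.ndz hp.out hp2 hpM hpr)) one_ne_zero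
      hz0 ⟨z, by push_cast; ring⟩

omit h in
lemma sel_iff {d1 d2 : ℤ} (q1 : Squarefree d1) (q2 : Squarefree d2) :
    (d1, d2) ∈ Sel a b ↔ Loc ℝ a b d1 d2 ∧ ∀ (p : ℕ) [Fact p.Prime], Loc ℚ_[p] a b d1 d2 :=
  ⟨fun h => ⟨h.2.2.1, h.2.2.2⟩, fun h => ⟨q1, q2, h.1, h.2⟩⟩

omit h in
lemma two_nd {z : ℤ} (h8 : z % 8 = 1) {q : ℕ} (hq : q.Prime) (hd : (q : ℤ) ∣ z)
    (h2 : q ∣ 2 * M) : q ∣ M := by
  rcases hq.dvd_mul.1 h2 with h' | h'
  · exfalso
    have h9 := (Nat.prime_dvd_prime_iff_eq hq Nat.prime_two).1 h'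
    subst h9
    have h10 : (2 : ℤ) ∣ z := by exact_mod_cast hd
    omega
  · exact h'

omit h in
lemma dvt {q : ℕ} {z : ℤ} (hd : (q : ℤ) ∣ z) : dv q z = true := by
  unfold dv
  exact decide_eq_true hd

lemma LD.id0 : SQ (-(a + b)) (a * b) = GB M (pr0 L) := by
  have ha0 := h.apos.ne'
  have hb0 := h.bpos.ne'
  have hab := h.ab
  have key : ∀ z : ℤ, z ≠ 0 → z ∣ a * b →
      (Qu ℝ (-(a + b)) (a * b) z ↔ PI ℝ 0 a b z) ∧
      ∀ (p : ℕ) [Fact p.Prime], (Qu ℚ_[p] (-(a + b)) (a * b) z ↔ PI ℚ_[p] 0 a b z) := by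
    intro z hz hd
    have := qu_pi (e1 := 0) (e2 := a) (e3 := b) (z := z) (Ne.symm ha0) (Ne.symm hb0) hab hz
      (by rw [sub_zero, sub_zero]; exact hd)
    rw [show (2 * 0 - a - b : ℤ) = -(a + b) by ring, sub_zero, sub_zero] at this
    exact this
  ext z
  constructor
  · rintro ⟨hz, hd, hr, hp⟩
    obtain ⟨g1, g2⟩ := key z hz.ne_zero hd
    have k1 := g1.1 hr
    have k2 : ∀ (p : ℕ) [Fact p.Prime], PI ℚ_[p] 0 a b z := fun p _ => (g2 p).1 (hp p)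
    have : Fact (Nat.Prime 2) := ⟨Nat.prime_two⟩
    refine ⟨⟨hz, fun q hq hqz => h.pr q hq ((hqz.trans hd).mul_right _), fun p hp => ?_⟩,
      re_pos h.apos h.bpos hz.ne_zero k1, h.mod8 hz (k2 2)⟩
    have : Fact p.Prime := ⟨Nat.prime_of_mem_primeFactors hp⟩
    exact h.n0 (Nat.dvd_of_mem_primeFactors hp) hz (k2 p)
  · intro hz
    obtain ⟨k1, k2⟩ := h.s0 hz
    obtain ⟨⟨hz, hpr, hL⟩, hz0, hz8⟩ := hz
    have hd : z ∣ a * b := by
      refine dvd_of hz fun q hq hqz => ?_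
      have hqM := two_nd hz8 hq hqz (hpr q hq hqz)
      obtain ⟨w, g, hw⟩ := hL q (h.mem hq hqM)
      exact h.c0 q hq hqM _ _ _ _ hw (dvt hqz)
    obtain ⟨g1, g2⟩ := key z hz.ne_zero hd
    exact ⟨hz, hd, g1.2 k1, fun p _ => (g2 p).2 (k2 p)⟩

lemma LD.id1 : SQ (2 * a - b) (a * (a - b)) = GA M (pr1 L) := by
  have ha0 := h.apos.ne'
  have hb0 := h.bpos.ne'
  have hab := h.ab
  have key : ∀ z : ℤ, z ≠ 0 → z ∣ a * (a - b) →
      (Qu ℝ (2 * a - b) (a * (a - b)) z ↔ PI ℝ a 0 b z) ∧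
      ∀ (p : ℕ) [Fact p.Prime], (Qu ℚ_[p] (2 * a - b) (a * (a - b)) z ↔ PI ℚ_[p] a 0 b z) := by
    intro z hz hd
    have e : ((0 - a) * (b - a) : ℤ) = a * (a - b) := by ring
    have := qu_pi (e1 := a) (e2 := 0) (e3 := b) (z := z) ha0 hab (Ne.symm hb0) hz
      (by rw [e]; exact hd)
    rw [show (2 * a - 0 - b : ℤ) = 2 * a - b by ring, e] at this
    exact this
  ext z
  constructor
  · rintro ⟨hz, hd, hr, hp⟩
    obtain ⟨g1, g2⟩ := key z hz.ne_zero hd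
    have k2 : ∀ (p : ℕ) [Fact p.Prime], PI ℚ_[p] a 0 b z := fun p _ => (g2 p).1 (hp p)
    refine ⟨hz, fun q hq hqz => h.pr q hq ?_, fun p hp => ?_⟩
    · have h1 := hqz.trans hd
      rw [show a * b * (a - b) = a * (a - b) * b by ring]
      exact h1.mul_right _
    · have : Fact p.Prime := ⟨Nat.prime_of_mem_primeFactors hp⟩
      exact h.n1 (Nat.dvd_of_mem_primeFactors hp) hz (k2 p)
  · intro hz
    obtain ⟨k1, k2⟩ := h.s1 hz
    obtain ⟨hz, hpr, hL⟩ := hz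
    have hd : z ∣ a * (a - b) := by
      refine dvd_of hz fun q hq hqz => ?_
      rcases hq.dvd_mul.1 (hpr q hq hqz) with h' | hqM
      · have h9 := (Nat.prime_dvd_prime_iff_eq hq Nat.prime_two).1 h'
        subst h9
        exact Dvd.dvd.mul_left (by exact_mod_cast h.ev) _
      · obtain ⟨w, g, hw⟩ := hL q (h.mem hq hqM)
        exact h.c1 q hq hqM _ _ _ _ hw (dvt hqz)
    obtain ⟨g1, g2⟩ := key z hz.ne_zero hd
    exact ⟨hz, hd, g1.2 k1, fun p _ => (g2 p).2 (k2 p)⟩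

lemma LD.id2 : SQ (2 * b - a) (b * (b - a)) = GA M (pr2 L) := by
  have ha0 := h.apos.ne'
  have hb0 := h.bpos.ne'
  have hab := h.ab
  have key : ∀ z : ℤ, z ≠ 0 → z ∣ b * (b - a) →
      (Qu ℝ (2 * b - a) (b * (b - a)) z ↔ PI ℝ b 0 a z) ∧
      ∀ (p : ℕ) [Fact p.Prime], (Qu ℚ_[p] (2 * b - a) (b * (b - a)) z ↔ PI ℚ_[p] b 0 a z) := by
    intro z hz hd
    have e : ((0 - b) * (a - b) : ℤ) = b * (b - a) := by ring
    have := qu_pi (e1 := b) (e2 := 0) (e3 := a) (z := z) hb0 hab.symm (Ne.symm ha0) hz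
      (by rw [e]; exact hd)
    rw [show (2 * b - 0 - a : ℤ) = 2 * b - a by ring, e] at this
    exact this
  ext z
  constructor
  · rintro ⟨hz, hd, hr, hp⟩
    obtain ⟨g1, g2⟩ := key z hz.ne_zero hd
    have k2 : ∀ (p : ℕ) [Fact p.Prime], PI ℚ_[p] b 0 a z := fun p _ => (g2 p).1 (hp p)
    refine ⟨hz, fun q hq hqz => h.pr q hq ?_, fun p hp => ?_⟩
    · have h1 := hqz.trans hd
      rw [show a * b * (a - b) = b * (b - a) * (-a) by ring]
      exact h1.mul_right _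
    · have : Fact p.Prime := ⟨Nat.prime_of_mem_primeFactors hp⟩
      exact h.n2 (Nat.dvd_of_mem_primeFactors hp) hz (k2 p)
  · intro hz
    obtain ⟨k1, k2⟩ := h.s2 hz
    obtain ⟨hz, hpr, hL⟩ := hz
    have hd : z ∣ b * (b - a) := by
      refine dvd_of hz fun q hq hqz => ?_
      rcases hq.dvd_mul.1 (hpr q hq hqz) with h' | hqM
      · have h9 := (Nat.prime_dvd_prime_iff_eq hq Nat.prime_two).1 h'
        subst h9
        have h10 : (2 : ℤ) ∣ b - a := by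
          have := h.ev
          rw [← dvd_neg, neg_sub] at this
          exact this
        exact Dvd.dvd.mul_left (by exact_mod_cast h10) _
      · obtain ⟨v, w, x, g, hv, k1, -⟩ := hL q (h.mem hq hqM)
        refine h.c2 q hq hqM _ _ _ _ hv ?_
        rw [← k1]
        exact dvt hqz
    obtain ⟨g1, g2⟩ := key z hz.ne_zero hd
    exact ⟨hz, hd, g1.2 k1, fun p _ => (g2 p).2 (k2 p)⟩

lemma LD.jd0 : SQ (2 * (a + b)) ((a - b) ^ 2) = GA M (in0 L) := by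
  have ha0 := h.apos.ne'
  have hb0 := h.bpos.ne'
  have hab := h.ab
  have key : ∀ z : ℤ, z ≠ 0 → z ∣ (a - b) ^ 2 →
      (Qu ℝ (2 * (a + b)) ((a - b) ^ 2) z ↔ PD ℝ 0 a b z) ∧
      ∀ (p : ℕ) [Fact p.Prime], (Qu ℚ_[p] (2 * (a + b)) ((a - b) ^ 2) z ↔
        PD ℚ_[p] 0 a b z) := by
    intro z hz hd
    have := qu_pd (e1 := 0) (e2 := a) (e3 := b) (z := z) (Ne.symm ha0) (Ne.symm hb0) hab hz hd
    rw [show (-2 * (2 * 0 - a - b) : ℤ) = 2 * (a + b) by ring] at this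
    exact this
  ext z
  constructor
  · rintro ⟨hz, hd, hr, hp⟩
    obtain ⟨g1, g2⟩ := key z hz.ne_zero hd
    have hS : ((1, z) : ℤ × ℤ) ∈ Sel a b := (sel_iff squarefree_one hz).2
      ⟨pd0_iff.1 (g1.1 hr), fun p _ => pd0_iff.1 ((g2 p).1 (hp p))⟩
    rw [h.sel] at hS
    obtain ⟨-, -, -, -, -, k6, k7⟩ := hS
    refine ⟨hz, k6, fun p hp => ?_⟩
    have h1 := k7 p hp
    rw [dv_one2 (Nat.prime_of_mem_primeFactors hp), sgn_one2] at h1
    exact h1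
  · rintro ⟨hz, hpr, hL⟩
    have hS : ((1, z) : ℤ × ℤ) ∈ Sel a b := by
      rw [h.sel]
      refine ⟨squarefree_one, hz, one_pos, by norm_num, fun q hq hd => absurd hd (nd_one hq),
        hpr, fun p hp => ?_⟩
      rw [dv_one2 (Nat.prime_of_mem_primeFactors hp), sgn_one2]
      exact hL p hp
    obtain ⟨k1, k2⟩ := (sel_iff squarefree_one hz).1 hS
    have hd : z ∣ (a - b) ^ 2 := by
      refine dvd_of hz fun q hq hqz => ?_
      rw [sq]
      rcases hq.dvd_mul.1 (hpr q hq hqz) with h' | hqM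
      · have h9 := (Nat.prime_dvd_prime_iff_eq hq Nat.prime_two).1 h'
        subst h9
        exact Dvd.dvd.mul_left (by exact_mod_cast h.ev) _
      · have hw := hL q (h.mem hq hqM)
        unfold in0 at hw
        rw [dvt hqz] at hw
        have e1 := h.c1 q hq hqM _ _ _ _ hw rfl
        have e2 := h.c2 q hq hqM _ _ _ _ hw rfl
        have hqi := Nat.prime_iff_prime_int.1 hq
        refine Dvd.dvd.mul_left ?_ _
        rcases hqi.dvd_or_dvd e1 with e1 | e1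
        · rcases hqi.dvd_or_dvd e2 with e2 | e2
          · exact dvd_sub e1 e2
          · rw [← dvd_neg, neg_sub] at e2
            exact e2
        · exact e1
    obtain ⟨g1, g2⟩ := key z hz.ne_zero hd
    exact ⟨hz, hd, g1.2 (pd0_iff.2 k1), fun p _ => (g2 p).2 (pd0_iff.2 (k2 p))⟩

lemma LD.jd1 : SQ (-2 * (2 * a - b)) (b ^ 2) = GB M (in1 L) := by
  have ha0 := h.apos.ne'
  have hb0 := h.bpos.ne'
  have hab := h.ab
  have key : ∀ z : ℤ, z ≠ 0 → z ∣ b ^ 2 →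
      (Qu ℝ (-2 * (2 * a - b)) (b ^ 2) z ↔ PD ℝ a 0 b z) ∧
      ∀ (p : ℕ) [Fact p.Prime], (Qu ℚ_[p] (-2 * (2 * a - b)) (b ^ 2) z ↔
        PD ℚ_[p] a 0 b z) := by
    intro z hz hd
    have e : ((0 - b) ^ 2 : ℤ) = b ^ 2 := by ring
    have := qu_pd (e1 := a) (e2 := 0) (e3 := b) (z := z) ha0 hab (Ne.symm hb0) hz
      (by rw [e]; exact hd)
    rw [show (2 * a - 0 - b : ℤ) = 2 * a - b by ring, e] at this
    exact this
  ext z
  constructor
  · rintro ⟨hz, hd, hr, hp⟩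
    obtain ⟨g1, g2⟩ := key z hz.ne_zero hd
    have hS : ((z, 1) : ℤ × ℤ) ∈ Sel a b := (sel_iff hz squarefree_one).2
      ⟨pd1_iff.1 (g1.1 hr), fun p _ => pd1_iff.1 ((g2 p).1 (hp p))⟩
    rw [h.sel] at hS
    obtain ⟨-, -, k3, k4, k5, -, k7⟩ := hS
    refine ⟨⟨hz, fun q hq hd => (k5 q hq hd).mul_left _, fun p hp => ?_⟩, k3, k4⟩
    have h1 := k7 p hp
    rw [dv_one2 (Nat.prime_of_mem_primeFactors hp), sgn_one2] at h1
    exact h1
  · rintro ⟨⟨hz, hpr, hL⟩, hz0, hz8⟩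
    have hS : ((z, 1) : ℤ × ℤ) ∈ Sel a b := by
      rw [h.sel]
      refine ⟨hz, squarefree_one, hz0, hz8, fun q hq hd => two_nd hz8 hq hd (hpr q hq hd),
        fun q hq hd => absurd hd (nd_one hq), fun p hp => ?_⟩
      rw [dv_one2 (Nat.prime_of_mem_primeFactors hp), sgn_one2]
      exact hL p hp
    obtain ⟨k1, k2⟩ := (sel_iff hz squarefree_one).1 hS
    have hd : z ∣ b ^ 2 := by
      refine dvd_of hz fun q hq hqz => ?_
      rw [sq]
      have hqM := two_nd hz8 hq hqz (hpr q hq hqz)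
      have hw := hL q (h.mem hq hqM)
      unfold in1 at hw
      rw [dvt hqz] at hw
      have e1 := h.c0 q hq hqM _ _ _ _ hw rfl
      have e2 := h.c2 q hq hqM _ _ _ _ hw rfl
      have hqi := Nat.prime_iff_prime_int.1 hq
      refine Dvd.dvd.mul_left ?_ _
      rcases hqi.dvd_or_dvd e1 with e1 | e1
      · rcases hqi.dvd_or_dvd e2 with e2 | e2
        · exact e2
        · have := dvd_add e2 e1
          rwa [sub_add_cancel] at this
      · exact e1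
    obtain ⟨g1, g2⟩ := key z hz.ne_zero hd
    exact ⟨hz, hd, g1.2 (pd1_iff.2 k1), fun p _ => (g2 p).2 (pd1_iff.2 (k2 p))⟩

lemma LD.jd2 : SQ (-2 * (2 * b - a)) (a ^ 2) = GB M (in2 L) := by
  have ha0 := h.apos.ne'
  have hb0 := h.bpos.ne'
  have hab := h.ab
  have key : ∀ z : ℤ, z ≠ 0 → z ∣ a ^ 2 →
      (Qu ℝ (-2 * (2 * b - a)) (a ^ 2) z ↔ PD ℝ b 0 a z) ∧
      ∀ (p : ℕ) [Fact p.Prime], (Qu ℚ_[p] (-2 * (2 * b - a)) (a ^ 2) z ↔
        PD ℚ_[p] b 0 a z) := by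
    intro z hz hd
    have e : ((0 - a) ^ 2 : ℤ) = a ^ 2 := by ring
    have := qu_pd (e1 := b) (e2 := 0) (e3 := a) (z := z) hb0 hab.symm (Ne.symm ha0) hz
      (by rw [e]; exact hd)
    rw [show (2 * b - 0 - a : ℤ) = 2 * b - a by ring, e] at this
    exact this
  ext z
  constructor
  · rintro ⟨hz, hd, hr, hp⟩
    obtain ⟨g1, g2⟩ := key z hz.ne_zero hd
    have hS : ((z, z) : ℤ × ℤ) ∈ Sel a b := (sel_iff hz hz).2
      ⟨(pd2_iff hz.ne_zero).1 (g1.1 hr), fun p _ => (pd2_iff hz.ne_zero).1 ((g2 p).1 (hp p))⟩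
    rw [h.sel] at hS
    obtain ⟨-, -, k3, k4, k5, -, k7⟩ := hS
    exact ⟨⟨hz, fun q hq hd => (k5 q hq hd).mul_left _, fun p hp => k7 p hp⟩, k3, k4⟩
  · rintro ⟨⟨hz, hpr, hL⟩, hz0, hz8⟩
    have hS : ((z, z) : ℤ × ℤ) ∈ Sel a b := by
      rw [h.sel]
      exact ⟨hz, hz, hz0, hz8, fun q hq hd => two_nd hz8 hq hd (hpr q hq hd), hpr,
        fun p hp => hL p hp⟩
    obtain ⟨k1, k2⟩ := (sel_iff hz hz).1 hS
    have hd : z ∣ a ^ 2 := by
      refine dvd_of hz fun q hq hqz => ?_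
      rw [sq]
      have hqM := two_nd hz8 hq hqz (hpr q hq hqz)
      have hw := hL q (h.mem hq hqM)
      unfold in2 at hw
      rw [dvt hqz] at hw
      have e1 := h.c0 q hq hqM _ _ _ _ hw rfl
      have e2 := h.c1 q hq hqM _ _ _ _ hw rfl
      have hqi := Nat.prime_iff_prime_int.1 hq
      refine Dvd.dvd.mul_left ?_ _
      rcases hqi.dvd_or_dvd e2 with e2 | e2
      · exact e2
      · rcases hqi.dvd_or_dvd e1 with e1 | e1
        · exact e1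
        · have := dvd_add e2 e1
          rwa [sub_add_cancel] at this
    obtain ⟨g1, g2⟩ := key z hz.ne_zero hd
    exact ⟨hz, hd, g1.2 ((pd2_iff hz.ne_zero).2 k1),
      fun p _ => (g2 p).2 ((pd2_iff hz.ne_zero).2 (k2 p))⟩

end

end Pool.Agent.Q52.ISO
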