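import Pool.Agent.Q52.ISO.Alg2
import Pool.Agent.Q52.ISO.Idn2
import Pool.Agent.Y667.PA.Pair

/-!
# Selmer groups of 2-isogenies: a positive proportion of the curves
-/

set_option autoImplicit false

namespace Pool.Agent.Q52.ISO

open Finset Pool.Agent.W262.RK Pool.Agent.W307.RT Pool.Agent.W307.RS Pool.Agent.W307.SE
  Pool.Agent.W307.FK Pool.Agent.W214.RK2 Pool.Agent.Y667.RP Pool.Agent.Y667.RZ
  Pool.Agent.Y535.RZ

open Pool.Agent.TH841.NO (Qu SQ)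

open Pool.Agent.Y667.ISO (GA GB pr0 pr1 pr2 in0 in1 in2 HP)

open Pool.Agent.Y667.MT (GoodR)

open Pool.Agent.Y285.RP (cc)

open Pool.Agent.Y667.PA (TPR)

/-- the local data of the curve -/
lemma ld1 {s : Fin 3 → ℕ} (h : HP s) :
    LD (s 0 : ℤ) (s 1 : ℤ) (∏ j, s j) (LF s (sgF (s 0) (s 1) (∏ j, s j))) := by
  have h17 : ¬ 17 ∣ ∏ j, s j := fun h' => lt_irrefl _ (h.big 17 (by norm_num) h')
  have hd : Dat s 1 := ⟨h.sq, h.odd, Nat.coprime_one_right _, h.rel, one_pos⟩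
  have hn1 : ∀ p : ℕ, p.Prime → ¬ p ∣ 1 := fun p hp h' => hp.one_lt.ne' (Nat.dvd_one.1 h')
  have hsel : Sel (((1 : ℕ) : ℤ) * s 0) (((1 : ℕ) : ℤ) * s 1) =
      VG (1 * ∏ j, s j) (LF s (sgF (s 0) (s 1) (∏ j, s j))) := by
    rw [Nat.cast_one, one_mul, one_mul, one_mul]
    exact Set.Subset.antisymm (SEL17 s h.sq h.odd h17 h.rel h.m0 h.m1 h.n0 h.n1).1
      (SURJ Pool.Agent.Y105.RZ.GOODS s h.sq h.odd h.big h.rel h.m0 h.m1 h.n0 h.n1).1
  have := ld_of hd (by norm_num) h.m0 h.m1 h.big (sgF (s 0) (s 1) (∏ j, s j))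
    (LF s (sgF (s 0) (s 1) (∏ j, s j))) (fun _ _ _ => rfl) (fun p hp hpP => by
      rw [Nat.cast_one, one_mul, one_mul]
      exact hd.memE hp hpP) (fun p hp h' => absurd h' (hn1 p hp))
    (fun p hp h' => absurd h' (hn1 p hp.out)) (fun p hp h' => absurd h' (hn1 p hp.out)) hsel
  rw [Nat.cast_one, one_mul, one_mul, one_mul] at this
  exact this

/-- the local data of the twist -/
lemma ld17 {s : Fin 3 → ℕ} (h : HP s) :
    LD (17 * (s 0 : ℤ)) (17 * (s 1 : ℤ)) (17 * ∏ j, s j)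
      (L17 s (sgF (s 0) (s 1) (∏ j, s j))) := by
  have hp17 : Nat.Prime 17 := by norm_num
  have h17 : ¬ 17 ∣ ∏ j, s j := fun h' => lt_irrefl _ (h.big 17 hp17 h')
  have hd : Dat s 17 := ⟨h.sq, h.odd, ((Nat.Prime.coprime_iff_not_dvd hp17).2 h17).symm, h.rel,
    by norm_num⟩
  have hne : ∀ p : ℕ, p.Prime → p ∣ ∏ j, s j → p ≠ 17 := by
    rintro p - h' rfl
    exact h17 h'
  have he : ∀ p : ℕ, p.Prime → p ∣ 17 → p = 17 := fun p hp h' =>
    (Nat.prime_dvd_prime_iff_eq hp hp17).1 h'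
  have hsel : Sel (((17 : ℕ) : ℤ) * s 0) (((17 : ℕ) : ℤ) * s 1) =
      VG (17 * ∏ j, s j) (L17 s (sgF (s 0) (s 1) (∏ j, s j))) :=
    Set.Subset.antisymm (SEL17 s h.sq h.odd h17 h.rel h.m0 h.m1 h.n0 h.n1).2
      (SURJ Pool.Agent.Y105.RZ.GOODS s h.sq h.odd h.big h.rel h.m0 h.m1 h.n0 h.n1).2
  refine ld_of hd (by norm_num) h.m0 h.m1 h.big
    (tw (∏ j, s j) (sgF (s 0) (s 1) (∏ j, s j)))
    (L17 s (sgF (s 0) (s 1) (∏ j, s j))) (fun p hp hpP => ?_) (fun p hp hpP => ?_)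
    (fun p hp h' => ?_) ?_ ?_ hsel
  · funext v w x g
    unfold L17
    rw [if_neg (hne p hp hpP)]
  · have hpf : p ∈ (∏ j, s j).primeFactors := Nat.mem_primeFactors.2 ⟨hp, hpP, h.sq.ne_zero⟩
    have hp17' := hne p hp hpP
    obtain ⟨e0, e1, e2⟩ := hd.memE hp hpP
    have htw : p ∈ tw (∏ j, s j) (sgF (s 0) (s 1) (∏ j, s j)) ↔
        ¬ (p ∈ sgF (s 0) (s 1) (∏ j, s j) ↔ jacobiSym 17 p = -1) := by
      unfold tw
      rw [mem_filter]
      exact and_iff_right hpf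
    refine ⟨fun h' => ?_, fun h' => ?_, fun h' => ?_⟩
    · rw [htw, e0 h', ← jac_tw hp hp17']
      · push_cast
        rw [mul_neg]
      · rw [dvd_neg, Int.natCast_dvd_natCast]
        exact cop_nd hp hd.cop01 h'
    · rw [htw, e1 h', ← jac_tw hp hp17']
      · push_cast
        rw [mul_neg]
      · rw [dvd_neg, Int.natCast_dvd_natCast]
        exact cop_nd hp hd.cop01.symm h'
    · rw [htw, e2 h', ← jac_tw hp hp17']
      · push_cast
        rfl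
      · rw [Int.natCast_dvd_natCast]
        exact fun h'' => cop_nd hp hd.cop012.symm h' (h''.mul_right _)
  · rw [he p hp h']
    norm_num
  · intro p hp h' d1 d2 q1 q2 hloc
    have := he p hp.out h'
    subst this
    unfold L17
    rw [if_pos rfl]
    exact nec_17 h.n0 h.n1 q1 q2 hloc
  · intro p hp h' d1 d2 q1 q2 hL
    have := he p hp.out h'
    subst this
    unfold L17 at hL
    rw [if_pos rfl] at hL
    have k0 := h.n0
    have k1 := h.n1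
    exact pt17 (by omega) (by omega) q1 q2 hL.1 hL.2

/-- for every root the sum of the two dimensions is congruent to `r` -/
def Par (r : ℕ) (c : ℤ × ℤ) : Prop := ∀ e : ℤ, e ^ 3 + c.1 * e + c.2 = 0 →
  ∃ f1 f2 : ℕ, (SQ (3 * e) (3 * e ^ 2 + c.1)).ncard = 2 ^ f1 ∧
    (SQ (-2 * (3 * e)) ((3 * e) ^ 2 - 4 * (3 * e ^ 2 + c.1))).ncard = 2 ^ f2 ∧
    Even (f1 + f2 + r)

lemma even_tr {f n r : ℕ} (h1 : Even (f + n)) (h2 : Even (n + r)) : Even (f + r) := by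
  rw [Nat.even_iff] at *
  omega

lemma par_of {a b k : ℤ} {M : ℕ} {L : ℕ → Bool → Bool → Bool → Bool → Prop} {n r : ℕ}
    (hk : a + b = 3 * k) (h : LD a b M L)
    (hA : (∃ f1 f2 : ℕ, (GB M (pr0 L)).ncard = 2 ^ f1 ∧ (GA M (in0 L)).ncard = 2 ^ f2 ∧
      Even (f1 + f2 + n)) ∧
    (∃ f1 f2 : ℕ, (GA M (pr1 L)).ncard = 2 ^ f1 ∧ (GB M (in1 L)).ncard = 2 ^ f2 ∧
      Even (f1 + f2 + n)) ∧
    (∃ f1 f2 : ℕ, (GA M (pr2 L)).ncard = 2 ^ f1 ∧ (GB M (in2 L)).ncard = 2 ^ f2 ∧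
      Even (f1 + f2 + n))) (hn : Even (n + r)) : Par r (cc a b k) := by
  intro e he
  unfold cc at he ⊢
  simp only at he ⊢
  have hk' : k = (a + b) / 3 := by omega
  have h1 : (e + k) * ((e - (a - k)) * (e - (b - k))) = 0 := by
    have hb : b = 3 * k - a := by linarith
    subst hb
    linear_combination he
  obtain ⟨⟨f1, f2, g1, g2, g3⟩, ⟨f1', f2', g1', g2', g3'⟩, ⟨f1'', f2'', g1'', g2'', g3''⟩⟩ := hA
  rcases mul_eq_zero.1 h1 with h2 | h2
  · have e1 : e = -k := by linarith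
    refine ⟨f1, f2, ?_, ?_, even_tr g3 hn⟩
    · rw [← g1, ← h.id0]
      congr 2
      · rw [e1]; linarith
      · rw [e1]; ring
    · rw [← g2, ← h.jd0]
      congr 2
      · rw [e1]; linarith
      · have hb : b = 3 * k - a := by linarith
        rw [e1, hb]; ring
  rcases mul_eq_zero.1 h2 with h2 | h2
  · have e1 : e = a - k := by linarith
    refine ⟨f1', f2', ?_, ?_, even_tr g3' hn⟩
    · rw [← g1', ← h.id1]
      congr 2
      · rw [e1]; linarith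
      · have hb : b = 3 * k - a := by linarith
        rw [e1, hb]; ring
    · rw [← g2', ← h.jd1]
      congr 2
      · rw [e1]; linarith
      · have hb : b = 3 * k - a := by linarith
        rw [e1, hb]; ring
  · have e1 : e = b - k := by linarith
    refine ⟨f1'', f2'', ?_, ?_, even_tr g3'' hn⟩
    · rw [← g1'', ← h.id2]
      congr 2
      · rw [e1]; linarith
      · have hb : b = 3 * k - a := by linarith
        rw [e1, hb]; ring
    · rw [← g2'', ← h.jd2]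
      congr 2
      · rw [e1]; linarith
      · have hb : b = 3 * k - a := by linarith
        rw [e1, hb]; ring

/-- the good pairs -/
lemma par_good {r X : ℕ} {t : ℕ × ℕ} (ht : t ∈ Icc 1 X ×ˢ Icc 1 X) (h : GoodR r X t) :
    (TPR r (cc (t.1 : ℤ) (t.2 : ℤ) (((t.1 + t.2) / 3 : ℕ) : ℤ)) ∧
      Par r (cc (t.1 : ℤ) (t.2 : ℤ) (((t.1 + t.2) / 3 : ℕ) : ℤ))) ∨
    (TPR r (cc (17 * (t.1 : ℤ)) (17 * (t.2 : ℤ)) (17 * (((t.1 + t.2) / 3 : ℕ) : ℤ))) ∧
      Par r (cc (17 * (t.1 : ℤ)) (17 * (t.2 : ℤ)) (17 * (((t.1 + t.2) / 3 : ℕ) : ℤ)))) := by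
  obtain ⟨s, hP, e0, e1, hk, hcase⟩ := Pool.Agent.Y667.PA.pair_of ht h
  obtain ⟨-, -, -, -, -, -, -, s', e0', e1', -, -, -, heq, -, -, -, -, hσ, -⟩ := h
  have hss : s' = s := by
    funext j
    have hr := hP.rel
    have hj3 : j = 0 ∨ j = 1 ∨ j = 2 := by fin_cases j <;> simp
    rcases hj3 with rfl | rfl | rfl
    · omega
    · omega
    · omega
  subst hss
  have h17 : ¬ 17 ∣ ∏ j, s' j := fun h' => lt_irrefl _ (hP.big 17 (by norm_num) h')
  rcases hcase with ⟨h1, h2⟩ | ⟨h1, h2⟩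
  · left
    refine ⟨h1, ?_⟩
    rw [← e0, ← e1]
    exact par_of hk (ld1 hP) (iso_of fun i Q hQ =>
      core0 hP.sq hP.odd hP.rel hP.m0 hP.m1 hσ hQ) h2
  · right
    refine ⟨h1, ?_⟩
    rw [← e0, ← e1]
    exact par_of (by linarith) (ld17 hP) (iso_of fun i Q hQ =>
      core17 hP.sq hP.odd hP.rel hP.m0 hP.m1 hσ h17 hP.n0 hP.n1 hQ) h2

/-- the two properties -/
def TP (r : ℕ) (k : ℤ × ℤ) : Prop := TPR r k ∧ Par r k

open Classical in
/-- **a positive proportion of the curves** -/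
theorem many (r : ℕ) : ∃ c : ℝ, 0 < c ∧ ∃ H0 : ℕ, ∀ H : ℕ, H0 ≤ H →
    c * ((Cv 2 H).card : ℝ) ≤ (((Cv 2 H).filter (TP r)).card : ℝ) := by
  obtain ⟨c, hc, H0, h⟩ := Pool.Agent.Y667.PA.transR r (TP r)
    fun _ _ ht h => par_good ht h
  refine ⟨c, hc, H0, fun H hH => (h H hH).trans (Nat.cast_le.2 (card_le_card fun k hk => ?_))⟩
  rw [mem_filter] at hk ⊢
  exact hk

end Pool.Agent.Q52.ISO
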